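import Mathlib

/-!
# Free field operators on the full Fock space

`FK ι` is the full Fock space with orthonormal basis the words in the letters `ι × Bool`.  The
operators `gg i = ℓ(i,1) + ℓ(i,0)*` commute with the operators `dd i = r(i,0) + r(i,1)*` and their
adjoints.
-/

set_option autoImplicit false

open scoped ENNReal InnerProductSpace

namespace T2H75.JCB

/-- Words. -/
abbrev Wd (ι : Type) : Type := List (ι × Bool)

/-- The full Fock space. -/
abbrev FK (ι : Type) : Type := lp (fun _ : Wd ι => ℂ) 2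

variable {ι : Type}

theorem memℓp_comp (s : Wd ι → Wd ι) (hs : Function.Injective s) (f : FK ι) :
    Memℓp (fun w => (f : Wd ι → ℂ) (s w)) 2 := by
  refine memℓp_gen ?_
  exact ((lp.memℓp f).summable (by norm_num)).comp_injective hs

/-- Composition with an injective map on words. -/
noncomputable def pull (s : Wd ι → Wd ι) (hs : Function.Injective s) : FK ι →L[ℂ] FK ι :=
  LinearMap.mkContinuous
    { toFun := fun f => ⟨fun w => f (s w), memℓp_comp s hs f⟩
      map_add' := fun f g => by ext w; simp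
      map_smul' := fun c f => by ext w; simp } 1 (by
    intro f
    refine lp.norm_le_of_tsum_le (by norm_num) (by positivity) ?_
    rw [one_mul, lp.norm_rpow_eq_tsum (by norm_num)]
    exact tsum_comp_le_tsum_of_inj ((lp.memℓp f).summable (by norm_num))
      (fun w => by positivity) hs)

@[simp]
theorem pull_apply (s : Wd ι → Wd ι) (hs : Function.Injective s) (f : FK ι) (w : Wd ι) :
    pull s hs f w = f (s w) := rfl

theorem norm_pull_le (s : Wd ι → Wd ι) (hs : Function.Injective s) (f : FK ι) :
    ‖pull s hs f‖ ≤ ‖f‖ := by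
  have h := (pull s hs).le_opNorm f
  have h2 : ‖pull s hs‖ ≤ 1 := LinearMap.mkContinuous_norm_le _ zero_le_one _
  exact h.trans (by nlinarith [norm_nonneg f, norm_nonneg (pull s hs)])

variable [DecidableEq ι]

/-- The canonical basis. -/
noncomputable def ev (w : Wd ι) : FK ι := lp.single 2 w (1 : ℂ)

theorem ev_apply (w v : Wd ι) : (ev w : Wd ι → ℂ) v = if v = w then 1 else 0 := by
  unfold ev
  rw [lp.single_apply]
  by_cases h : v = w
  · subst h; simp
  · simp [h]

theorem inner_ev_left (w : Wd ι) (f : FK ι) : ⟪ev w, f⟫_ℂ = f w := by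
  unfold ev
  rw [lp.inner_single_left]
  simp

theorem inner_ev_right (w : Wd ι) (f : FK ι) : ⟪f, ev w⟫_ℂ = star (f w : ℂ) := by
  rw [← inner_conj_symm, inner_ev_left]
  rfl

theorem clm_ext {E : Type*} [NormedAddCommGroup E] [NormedSpace ℂ E] {S T : FK ι →L[ℂ] E}
    (h : ∀ w, S (ev w) = T (ev w)) : S = T := by
  refine lp.ext_continuousLinearMap (by norm_num) fun w => ?_
  ext
  simpa [ev] using h w

/-- Left annihilation. -/
noncomputable def pL (a : ι × Bool) : FK ι →L[ℂ] FK ι :=
  pull (fun w => a :: w) (fun _ _ h => (List.cons.inj h).2)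

/-- Right annihilation. -/
noncomputable def pR (a : ι × Bool) : FK ι →L[ℂ] FK ι :=
  pull (fun w => w ++ [a]) (fun _ _ h => List.append_cancel_right h)

/-- Left creation. -/
noncomputable def cL (a : ι × Bool) : FK ι →L[ℂ] FK ι := star (pL a)

/-- Right creation. -/
noncomputable def cR (a : ι × Bool) : FK ι →L[ℂ] FK ι := star (pR a)

theorem star_pull_ev (s : Wd ι → Wd ι) (hs : Function.Injective s) (w : Wd ι) :
    star (pull s hs) (ev w) = ev (s w) := by
  ext v
  rw [← inner_ev_left, ContinuousLinearMap.star_eq_adjoint,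
    ContinuousLinearMap.adjoint_inner_right, inner_ev_right, pull_apply, ev_apply, ev_apply]
  by_cases h : s w = v
  · simp [h]
  · simp [h, Ne.symm h]

theorem cL_ev (a : ι × Bool) (w : Wd ι) : cL a (ev w) = ev (a :: w) := star_pull_ev _ _ _

theorem cR_ev (a : ι × Bool) (w : Wd ι) : cR a (ev w) = ev (w ++ [a]) := star_pull_ev _ _ _

theorem pL_ev_nil (a : ι × Bool) : pL a (ev []) = 0 := by
  ext v
  simp [pL, ev_apply]

theorem pR_ev_nil (a : ι × Bool) : pR a (ev []) = 0 := by
  ext v
  simp [pR, ev_apply]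

theorem pL_ev_cons (a b : ι × Bool) (w : Wd ι) :
    pL a (ev (b :: w)) = if a = b then ev w else 0 := by
  ext v
  by_cases h : a = b
  · subst h
    simp [pL, ev_apply]
  · simp [pL, ev_apply, h]

theorem pR_ev_snoc (a b : ι × Bool) (w : Wd ι) :
    pR a (ev (w ++ [b])) = if a = b then ev w else 0 := by
  ext v
  by_cases h : a = b
  · subst h
    simp [pR, ev_apply]
  · simp [pR, ev_apply, h]

/-- The projection onto the vacuum. -/
noncomputable def vac : FK ι →L[ℂ] FK ι :=
  (innerSL ℂ (ev ([] : Wd ι))).smulRight (ev [])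

theorem vac_apply (x : FK ι) : vac x = ((x : Wd ι → ℂ) []) • ev [] := by
  rw [← inner_ev_left]
  rfl

theorem pL_mul_cL (a b : ι × Bool) : pL a * cL b = if a = b then 1 else 0 := by
  refine clm_ext fun w => ?_
  rw [mul_apply_eq_comp, cL_ev, pL_ev_cons]
  split_ifs <;> rfl

omit [DecidableEq ι] in
theorem pR_mul_pL (a b : ι × Bool) : pR a * pL b = (pL b * pR a : FK ι →L[ℂ] FK ι) := by
  ext f w
  simp [pL, pR]

omit [DecidableEq ι] in
theorem cR_mul_cL (a b : ι × Bool) : cR a * cL b = (cL b * cR a : FK ι →L[ℂ] FK ι) := by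
  have := congrArg star (pR_mul_pL (ι := ι) a b)
  rw [star_mul, star_mul] at this
  exact this.symm

theorem pL_mul_cR (a b : ι × Bool) :
    pL a * cR b = (cR b * pL a : FK ι →L[ℂ] FK ι) + if a = b then vac else 0 := by
  refine clm_ext fun w => ?_
  rw [mul_apply_eq_comp, cR_ev, _root_.add_apply,
    mul_apply_eq_comp]
  cases w with
  | nil =>
    rw [List.nil_append, pL_ev_cons, pL_ev_nil, map_zero, zero_add]
    split_ifs
    · rw [vac_apply, ev_apply, if_pos rfl, one_smul]
    · rfl
  | cons c t =>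
    rw [List.cons_append, pL_ev_cons, pL_ev_cons]
    have : (if a = b then vac else 0 : FK ι →L[ℂ] FK ι) (ev (c :: t)) = 0 := by
      split_ifs
      · rw [vac_apply, ev_apply, if_neg (by simp), zero_smul]
      · rfl
    rw [this, add_zero]
    split_ifs
    · rw [cR_ev]
    · rw [map_zero]

theorem star_vac : star (vac : FK ι →L[ℂ] FK ι) = vac := by
  rw [ContinuousLinearMap.star_eq_adjoint]
  symm
  rw [ContinuousLinearMap.eq_adjoint_iff]
  intro x y
  simp [vac, inner_smul_left, inner_smul_right, mul_comm]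

theorem pR_mul_cL (a b : ι × Bool) :
    pR b * cL a = (cL a * pR b : FK ι →L[ℂ] FK ι) + if a = b then vac else 0 := by
  have := congrArg star (pL_mul_cR (ι := ι) a b)
  rw [star_mul, star_add, star_mul, cR, star_star] at this
  rw [show cL a = star (pL a) from rfl, this]
  congr 1
  split_ifs
  · exact star_vac
  · exact star_zero _

/-- The free field operators. -/
noncomputable def gg (i : ι) : FK ι →L[ℂ] FK ι := cL (i, true) + pL (i, false)

/-- The operators of the commutant. -/
noncomputable def dd (i : ι) : FK ι →L[ℂ] FK ι := cR (i, false) + pR (i, true)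

theorem dd_mul_gg (i j : ι) : dd i * gg j = (gg j * dd i : FK ι →L[ℂ] FK ι) := by
  unfold dd gg
  rw [mul_add, add_mul, add_mul, mul_add, add_mul, add_mul, cR_mul_cL, pR_mul_cL, pL_mul_cR,
    pR_mul_pL]
  by_cases h : i = j
  · subst h
    simp only [if_true]
    abel
  · have h1 : ¬ ((j, true) = (i, true)) := by simp [Ne.symm h]
    have h2 : ¬ ((j, false) = (i, false)) := by simp [Ne.symm h]
    rw [if_neg h1, if_neg h2]
    abel

theorem star_dd_mul_gg (i j : ι) : star (dd i) * gg j = (gg j * star (dd i) : FK ι →L[ℂ] FK ι) := by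
  unfold dd gg
  rw [star_add, show star (cR (i, false) : FK ι →L[ℂ] FK ι) = pR (i, false) from star_star _,
    show star (pR (i, true) : FK ι →L[ℂ] FK ι) = cR (i, true) from rfl]
  rw [mul_add, add_mul, add_mul, mul_add, add_mul, add_mul, cR_mul_cL, pR_mul_cL, pL_mul_cR,
    pR_mul_pL]
  rw [if_neg (by simp), if_neg (by simp)]
  abel

/-- The commutant. -/
noncomputable def AA (ι : Type) [DecidableEq ι] : StarSubalgebra ℂ (FK ι →L[ℂ] FK ι) :=
  StarSubalgebra.centralizer ℂ (Set.range (dd (ι := ι)))

theorem isClosed_AA : IsClosed ((AA ι : StarSubalgebra ℂ (FK ι →L[ℂ] FK ι)) :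
    Set (FK ι →L[ℂ] FK ι)) := by
  unfold AA
  rw [StarSubalgebra.coe_centralizer]
  exact Set.isClosed_centralizer _

theorem gg_mem (i : ι) : gg i ∈ AA ι := by
  unfold AA
  rw [StarSubalgebra.mem_centralizer_iff]
  rintro _ ⟨j, rfl⟩
  exact ⟨dd_mul_gg j i, star_dd_mul_gg j i⟩

theorem dd_vac (i : ι) : dd i (ev []) = ev [(i, false)] := by
  rw [dd, _root_.add_apply, cR_ev, pR_ev_nil, add_zero, List.nil_append]

theorem star_dd_vac (i : ι) : star (dd i) (ev []) = ev [(i, true)] := by
  rw [dd, star_add, show star (cR (i, false) : FK ι →L[ℂ] FK ι) = pR (i, false) from star_star _,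
    show star (pR (i, true) : FK ι →L[ℂ] FK ι) = cR (i, true) from rfl,
    _root_.add_apply, cR_ev, pR_ev_nil, zero_add, List.nil_append]

theorem gg_vac (i : ι) : gg i (ev []) = ev [(i, true)] := by
  rw [gg, _root_.add_apply, cL_ev, pL_ev_nil, add_zero]

/-- The two expressions of the coefficient functional. -/
theorem coef_eq (i : ι) {a : FK ι →L[ℂ] FK ι} (ha : a ∈ AA ι) :
    ⟪ev [(i, true)], a (ev [])⟫_ℂ = ⟪ev [], a (ev [(i, false)])⟫_ℂ := by
  unfold AA at ha
  rw [StarSubalgebra.mem_centralizer_iff] at ha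
  have h := (ha (dd i) ⟨i, rfl⟩).1
  rw [← star_dd_vac, ← dd_vac, ContinuousLinearMap.star_eq_adjoint,
    ContinuousLinearMap.adjoint_inner_left]
  have h2 := congrArg (fun T : FK ι →L[ℂ] FK ι => T (ev [])) h
  simp only [mul_apply_eq_comp] at h2
  rw [h2]

end T2H75.JCB
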