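import Mathlib
import Pool.Agent.T2H75.JCB.Fock

/-!
# The C*-algebra `Al ι` and the norm of matrices over it
-/

set_option autoImplicit false

open scoped ENNReal InnerProductSpace CStarMatrix

namespace T2H75.JCB

variable {ι : Type} [DecidableEq ι]

/-- The commutant as a type. -/
def Al (ι : Type) [DecidableEq ι] : Type := ↥(AA ι)

noncomputable instance : CStarAlgebra (Al ι) :=
  @StarSubalgebra.cstarAlgebra _ _ _ _ _ _ _ (AA ι) isClosed_AA

noncomputable instance : PartialOrder (Al ι) := CStarAlgebra.spectralOrder (Al ι)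

instance : StarOrderedRing (Al ι) := CStarAlgebra.spectralOrderedRing (Al ι)

/-- The inclusion. -/
noncomputable def inc : Al ι →⋆ₐ[ℂ] (FK ι →L[ℂ] FK ι) := (AA ι).subtype

theorem inc_injective : Function.Injective (inc : Al ι → (FK ι →L[ℂ] FK ι)) :=
  Subtype.val_injective

theorem inc_mem (a : Al ι) : inc a ∈ AA ι := a.2

/-- The generators. -/
noncomputable def ga (i : ι) : Al ι := ⟨gg i, gg_mem i⟩

theorem inc_ga (i : ι) : inc (ga i) = gg i := rfl

section opMat

variable {H : Type} [NormedAddCommGroup H] [InnerProductSpace ℂ H]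
variable {κ : Type} [Fintype κ]

/-- The operator matrix `(T i j)` acting on the Hilbert space sum. -/
noncomputable def opMat (T : κ → κ → (H →L[ℂ] H)) :
    PiLp 2 (fun _ : κ => H) →L[ℂ] PiLp 2 (fun _ : κ => H) :=
  (PiLp.continuousLinearEquiv 2 ℂ (fun _ : κ => H)).symm.toContinuousLinearMap ∘L
    (ContinuousLinearMap.pi fun i => ∑ j, (T i j) ∘L (ContinuousLinearMap.proj j)) ∘L
      (PiLp.continuousLinearEquiv 2 ℂ (fun _ : κ => H)).toContinuousLinearMap

theorem opMat_apply (T : κ → κ → (H →L[ℂ] H)) (v : PiLp 2 (fun _ : κ => H)) (i : κ) :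
    opMat T v i = ∑ j, T i j (v j) := by
  simp [opMat]

theorem opMat_star [CompleteSpace H] (T : κ → κ → (H →L[ℂ] H)) :
    star (opMat T) = opMat fun i j => star (T j i) := by
  rw [ContinuousLinearMap.star_eq_adjoint]
  symm
  rw [ContinuousLinearMap.eq_adjoint_iff]
  intro v w
  simp only [PiLp.inner_apply, opMat_apply, sum_inner, inner_sum]
  rw [Finset.sum_comm]
  refine Finset.sum_congr rfl fun i _ => Finset.sum_congr rfl fun j _ => ?_
  rw [ContinuousLinearMap.star_eq_adjoint, ContinuousLinearMap.adjoint_inner_left]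

end opMat

/-- Matrices over `Al ι` act on the Hilbert space sum. -/
noncomputable def amp (κ : Type) [Fintype κ] [DecidableEq κ] :
    CStarMatrix κ κ (Al ι) →⋆ₐ[ℂ]
      (PiLp 2 (fun _ : κ => FK ι) →L[ℂ] PiLp 2 (fun _ : κ => FK ι)) where
  toFun X := opMat fun i j => inc (X i j)
  map_one' := by
    ext v i : 2
    rw [opMat_apply, Finset.sum_eq_single i]
    · simp
    · intro j _ hj
      simp [Ne.symm hj]
    · simp
  map_mul' X Y := by
    ext v i : 2
    simp only [mul_apply_eq_comp, opMat_apply, CStarMatrix.mul_apply, map_sum, map_mul, sum_apply]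
    rw [Finset.sum_comm]
  map_zero' := by
    ext v i : 2
    simp [opMat_apply]
  map_add' X Y := by
    ext v i : 2
    simp [opMat_apply, Finset.sum_add_distrib]
  commutes' c := by
    ext v i : 2
    rw [opMat_apply, Finset.sum_eq_single i]
    · simp [CStarMatrix.algebraMap_apply, Algebra.algebraMap_eq_smul_one]
    · intro j _ hj
      simp [CStarMatrix.algebraMap_apply, Ne.symm hj]
    · simp
  map_star' X := by
    rw [opMat_star]
    congr 1

theorem amp_apply (κ : Type) [Fintype κ] [DecidableEq κ] (X : CStarMatrix κ κ (Al ι))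
    (v : PiLp 2 (fun _ : κ => FK ι)) (i : κ) : amp κ X v i = ∑ j, inc (X i j) (v j) :=
  opMat_apply _ _ _

theorem amp_injective (κ : Type) [Fintype κ] [DecidableEq κ] :
    Function.Injective (amp κ : CStarMatrix κ κ (Al ι) → _) := by
  intro X Y h
  refine CStarMatrix.ext fun i j => inc_injective ?_
  ext f : 1
  have h2 := congrArg (fun T => T (WithLp.toLp 2 (Pi.single j f)) i) h
  simp only [amp_apply] at h2
  have e : ∀ Z : CStarMatrix κ κ (Al ι),
      ∑ k, inc (Z i k) ((WithLp.toLp 2 (Pi.single j f) : PiLp 2 (fun _ : κ => FK ι)) k)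
        = inc (Z i j) f := by
    intro Z
    rw [Finset.sum_eq_single j]
    · simp
    · intro k _ hk
      simp [Pi.single_eq_of_ne hk]
    · simp
  rw [e, e] at h2
  exact h2

theorem amp_le (κ : Type) [Fintype κ] [DecidableEq κ] (X : CStarMatrix κ κ (Al ι))
    (v : κ → FK ι) :
    ∑ i, ‖∑ j, inc (X i j) (v j)‖ ^ 2 ≤ ‖X‖ ^ 2 * ∑ j, ‖v j‖ ^ 2 := by
  have h1 : ‖amp κ X‖ ≤ ‖X‖ := NonUnitalStarAlgHom.norm_apply_le _ X
  set w : PiLp 2 (fun _ : κ => FK ι) := WithLp.toLp 2 v with hw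
  have h2 := (amp κ X).le_opNorm w
  have h3 : ‖amp κ X w‖ ≤ ‖X‖ * ‖w‖ := h2.trans (by gcongr)
  have h4 : ‖amp κ X w‖ ^ 2 ≤ ‖X‖ ^ 2 * ‖w‖ ^ 2 := by
    rw [← mul_pow]
    gcongr
  rw [PiLp.norm_sq_eq_of_L2, PiLp.norm_sq_eq_of_L2] at h4
  simpa only [amp_apply, hw] using h4

theorem norm_le_of_amp (κ : Type) [Fintype κ] [DecidableEq κ] (X : CStarMatrix κ κ (Al ι))
    {C : ℝ} (hC : 0 ≤ C)
    (h : ∀ v : κ → FK ι, ∑ i, ‖∑ j, inc (X i j) (v j)‖ ^ 2 ≤ C ^ 2 * ∑ j, ‖v j‖ ^ 2) :
    ‖X‖ ≤ C := by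
  have h1 : ‖amp κ X‖ = ‖X‖ := NonUnitalStarAlgHom.norm_map _ (amp_injective κ) X
  rw [← h1]
  refine ContinuousLinearMap.opNorm_le_bound _ hC fun v => ?_
  refine le_of_sq_le_sq ?_ (by positivity)
  rw [mul_pow, PiLp.norm_sq_eq_of_L2, PiLp.norm_sq_eq_of_L2]
  simpa only [amp_apply] using h fun j => v j

end T2H75.JCB
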