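import Mathlib

/-!
# Haagerup's Cauchy-Schwarz inequality for tensor products

For matrices `z j` and `c j` one has
`‖∑ z j ⊗ c j‖ ≤ ‖∑ z j ⊗ conj (z j)‖ ^ (1/2) ‖∑ c j ⊗ conj (c j)‖ ^ (1/2)`.
We state it through the Hilbert-Schmidt pairing, and for families `c` which are row and column
contractions (so that the last factor is at most one).
-/

set_option autoImplicit false

open Matrix
open scoped MatrixOrder ComplexOrder

namespace T2H75.JCB

variable {K Q R J : Type*} [Fintype K] [Fintype Q] [Fintype R] [Fintype J]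

/-- The square of the Hilbert-Schmidt norm. -/
noncomputable def fr (A : Matrix K Q ℂ) : ℝ := ∑ i, ∑ j, ‖A i j‖ ^ 2

theorem fr_nonneg (A : Matrix K Q ℂ) : 0 ≤ fr A :=
  Finset.sum_nonneg fun _ _ => Finset.sum_nonneg fun _ _ => sq_nonneg _

theorem fr_conjTranspose (A : Matrix K Q ℂ) : fr Aᴴ = fr A := by
  unfold fr
  rw [Finset.sum_comm]
  simp [conjTranspose_apply]

theorem trace_conjTranspose_mul_self (A : Matrix K Q ℂ) : trace (Aᴴ * A) = (fr A : ℂ) := by
  unfold fr trace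
  simp only [diag_apply, mul_apply, conjTranspose_apply, Complex.ofReal_sum, Complex.ofReal_pow]
  rw [Finset.sum_comm]
  refine Finset.sum_congr rfl fun i _ => Finset.sum_congr rfl fun j _ => ?_
  rw [Complex.star_def, Complex.conj_mul']

theorem trace_mul_conjTranspose_self (A : Matrix K Q ℂ) : trace (A * Aᴴ) = (fr A : ℂ) := by
  rw [trace_mul_comm, trace_conjTranspose_mul_self]

/-- Cauchy-Schwarz for the Hilbert-Schmidt pairing. -/
theorem norm_sum_trace_le (A : J → Matrix K Q ℂ) (B : J → Matrix Q K ℂ) :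
    ‖∑ j, trace (A j * B j)‖ ≤ √(∑ j, fr (A j)) * √(∑ j, fr (B j)) := by
  have h1 : ‖∑ j, trace (A j * B j)‖ ≤ ∑ x : J × K × Q, ‖A x.1 x.2.1 x.2.2‖ * ‖B x.1 x.2.2 x.2.1‖ := by
    rw [Fintype.sum_prod_type]
    refine (norm_sum_le _ _).trans (Finset.sum_le_sum fun j _ => ?_)
    rw [Fintype.sum_prod_type]
    simp only [trace, diag_apply, mul_apply]
    refine (norm_sum_le _ _).trans (Finset.sum_le_sum fun k _ => ?_)
    refine (norm_sum_le _ _).trans (Finset.sum_le_sum fun q _ => ?_)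
    rw [norm_mul]
  refine h1.trans ((Real.sum_mul_le_sqrt_mul_sqrt _ _ _).trans (le_of_eq ?_))
  congr 2
  · rw [Fintype.sum_prod_type]
    refine Finset.sum_congr rfl fun j _ => ?_
    rw [Fintype.sum_prod_type]
    rfl
  · rw [Fintype.sum_prod_type]
    refine Finset.sum_congr rfl fun j _ => ?_
    rw [Fintype.sum_prod_type, Finset.sum_comm]
    rfl

/-- A family which is a column contraction and a row contraction (the unit ball of `R ∩ C` with
matrix coefficients). -/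
structure UB (c : J → Matrix Q Q ℂ) : Prop where
  col : ∀ v : Q → ℂ, ∑ j, ∑ q, ‖∑ q', c j q q' * v q'‖ ^ 2 ≤ ∑ q, ‖v q‖ ^ 2
  row : ∀ v : Q → ℂ, ∑ j, ∑ q', ‖∑ q, v q * c j q q'‖ ^ 2 ≤ ∑ q, ‖v q‖ ^ 2

theorem UB.fr_mul_left {c : J → Matrix Q Q ℂ} (hc : UB c) (M : Matrix Q R ℂ) :
    ∑ j, fr (c j * M) ≤ fr M := by
  unfold fr
  calc ∑ j, ∑ q, ∑ r, ‖(c j * M) q r‖ ^ 2
      = ∑ r, ∑ j, ∑ q, ‖∑ q', c j q q' * M q' r‖ ^ 2 := by
        conv_rhs => rw [Finset.sum_comm]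
        refine Finset.sum_congr rfl fun j _ => ?_
        rw [Finset.sum_comm]
        rfl
    _ ≤ ∑ r, ∑ q, ‖M q r‖ ^ 2 := Finset.sum_le_sum fun r _ => hc.col fun q => M q r
    _ = ∑ q, ∑ r, ‖M q r‖ ^ 2 := Finset.sum_comm

theorem UB.fr_mul_right {c : J → Matrix Q Q ℂ} (hc : UB c) (M : Matrix R Q ℂ) :
    ∑ j, fr (M * c j) ≤ fr M := by
  unfold fr
  calc ∑ j, ∑ r, ∑ q, ‖(M * c j) r q‖ ^ 2
      = ∑ r, ∑ j, ∑ q, ‖∑ q', M r q' * c j q' q‖ ^ 2 := by
        rw [Finset.sum_comm]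
        rfl
    _ ≤ ∑ r, ∑ q, ‖M r q‖ ^ 2 := Finset.sum_le_sum fun r _ => hc.row fun q => M r q

theorem UB.transpose {c : J → Matrix Q Q ℂ} (hc : UB c) : UB fun j => (c j)ᵀ where
  col v := by simpa [transpose_apply, mul_comm] using hc.row v
  row v := by simpa [transpose_apply, mul_comm] using hc.col v

theorem UB.conj {c : J → Matrix Q Q ℂ} (hc : UB c) : UB fun j => (c j).map star where
  col v := by
    have h := hc.col fun q => star (v q)
    have e : ∀ j q, ‖∑ q', (c j).map star q q' * v q'‖ = ‖∑ q', c j q q' * star (v q')‖ := by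
      intro j q
      rw [← norm_star (∑ q', c j q q' * star (v q'))]
      simp [star_sum, star_mul', mul_comm]
    simp only [norm_star] at h
    simp only [e]
    exact h
  row v := by
    have h := hc.row fun q => star (v q)
    have e : ∀ j q', ‖∑ q, v q * (c j).map star q q'‖ = ‖∑ q, star (v q) * c j q q'‖ := by
      intro j q
      rw [← norm_star (∑ q', star (v q') * c j q' q)]
      simp [star_sum, star_mul', mul_comm]
    simp only [norm_star] at h
    simp only [e]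
    exact h

theorem UB.fr_mul_conjTranspose {c : J → Matrix Q Q ℂ} (hc : UB c) (M : Matrix R Q ℂ) :
    ∑ j, fr (M * (c j)ᴴ) ≤ fr M := by
  have h := hc.fr_mul_left Mᴴ
  rw [fr_conjTranspose] at h
  refine le_trans (le_of_eq (Finset.sum_congr rfl fun j _ => ?_)) h
  rw [← fr_conjTranspose]
  simp [conjTranspose_mul]

variable [DecidableEq K] [DecidableEq Q]

omit [Fintype K] [DecidableEq K] in
theorem exists_posDef_sqrt [Fintype K] [DecidableEq K] {A : Matrix K K ℂ} (hA : A.PosDef) :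
    ∃ S : Matrix K K ℂ, S.PosDef ∧ S * S = A := by
  have hn : 0 ≤ A := hA.posSemidef.nonneg
  have hS : (CFC.sqrt A).PosSemidef := nonneg_iff_posSemidef.1 (CFC.sqrt_nonneg A)
  have hSS : CFC.sqrt A * CFC.sqrt A = A := CFC.sqrt_mul_sqrt_self A
  refine ⟨CFC.sqrt A, ?_, hSS⟩
  rw [hS.posDef_iff_isUnit]
  have hu : IsUnit A := (hA.posSemidef.posDef_iff_isUnit).1 hA
  rw [← hSS] at hu
  exact isUnit_of_mul_isUnit_left hu

omit [DecidableEq Q] in
/-- The weight: `G ^ 2 = H H* + ε`. -/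
theorem exists_weight (H : Matrix K Q ℂ) {ε : ℝ} (hε : 0 < ε) :
    ∃ S : Matrix K K ℂ, S.PosDef ∧ (S * S).PosDef ∧
      (S * S) * (S * S) = H * Hᴴ + (ε : ℂ) • (1 : Matrix K K ℂ) := by
  have h1 : (H * Hᴴ + (ε : ℂ) • (1 : Matrix K K ℂ)).PosDef := by
    refine PosDef.posSemidef_add (posSemidef_self_mul_conjTranspose H) ?_
    exact PosDef.smul PosDef.one (by exact_mod_cast hε)
  obtain ⟨G, hG, hGG⟩ := exists_posDef_sqrt h1
  obtain ⟨S, hS, hSS⟩ := exists_posDef_sqrt hG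
  exact ⟨S, hS, hSS ▸ hG, by rw [hSS, hGG]⟩

section weight

variable {H : Matrix K Q ℂ} {ε : ℝ} {S : Matrix K K ℂ}

omit [DecidableEq Q] in
theorem fr_weight (hS : S.PosDef)
    (h : (S * S) * (S * S) = H * Hᴴ + (ε : ℂ) • (1 : Matrix K K ℂ)) :
    fr (S * S) = fr H + ε * Fintype.card K := by
  have h1 : (S * S)ᴴ = S * S := by rw [conjTranspose_mul, hS.isHermitian.eq]
  have h2 := trace_conjTranspose_mul_self (S * S)
  rw [h1, h, trace_add, trace_mul_conjTranspose_self, trace_smul, trace_one] at h2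
  have h3 : ((fr H + ε * Fintype.card K : ℝ) : ℂ) = (fr (S * S) : ℝ) := by
    rw [← h2]
    push_cast
    simp
  exact (Complex.ofReal_injective h3).symm

omit [DecidableEq Q] in
theorem fr_gauge (hε : 0 < ε) (hS : S.PosDef)
    (h : (S * S) * (S * S) = H * Hᴴ + (ε : ℂ) • (1 : Matrix K K ℂ)) :
    fr (Hᴴ * (S⁻¹ * S⁻¹) * H) ≤ fr H := by
  have hu : IsUnit S.det := (Matrix.isUnit_iff_isUnit_det S).1 hS.isUnit
  have hi : (S⁻¹)ᴴ = S⁻¹ := by rw [conjTranspose_nonsing_inv, hS.isHermitian.eq]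
  have hD : H * Hᴴ = (S * S) * (S * S) - (ε : ℂ) • (1 : Matrix K K ℂ) := by rw [h]; simp
  have e1 : (Hᴴ * (S⁻¹ * S⁻¹) * H)ᴴ * (Hᴴ * (S⁻¹ * S⁻¹) * H)
      = Hᴴ * H - (ε : ℂ) • ((S⁻¹ * (S⁻¹ * H))ᴴ * (S⁻¹ * (S⁻¹ * H))) := by
    have e2 : S⁻¹ * S⁻¹ * (H * Hᴴ) * (S⁻¹ * S⁻¹)
        = 1 - (ε : ℂ) • (S⁻¹ * S⁻¹ * (S⁻¹ * S⁻¹)) := by
      rw [hD, Matrix.mul_sub, Matrix.sub_mul]
      congr 1
      · simp only [Matrix.mul_assoc]
        rw [Matrix.nonsing_inv_mul_cancel_left _ _ hu, Matrix.nonsing_inv_mul_cancel_left _ _ hu,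
          Matrix.mul_nonsing_inv_cancel_left _ _ hu, Matrix.mul_nonsing_inv _ hu]
      · simp
    calc (Hᴴ * (S⁻¹ * S⁻¹) * H)ᴴ * (Hᴴ * (S⁻¹ * S⁻¹) * H)
        = Hᴴ * (S⁻¹ * S⁻¹ * (H * Hᴴ) * (S⁻¹ * S⁻¹)) * H := by
          simp only [conjTranspose_mul, conjTranspose_conjTranspose, hi, Matrix.mul_assoc]
      _ = _ := by
          rw [e2, Matrix.mul_sub, Matrix.sub_mul]
          simp only [conjTranspose_mul, hi, Matrix.mul_assoc, Matrix.mul_one, Matrix.mul_smul,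
            Matrix.smul_mul]
  have e3 := congrArg trace e1
  rw [trace_conjTranspose_mul_self, trace_sub, trace_smul, trace_conjTranspose_mul_self,
    trace_conjTranspose_mul_self] at e3
  have e4 : fr (Hᴴ * (S⁻¹ * S⁻¹) * H) = fr H - ε * fr (S⁻¹ * (S⁻¹ * H)) := by
    apply Complex.ofReal_injective
    rw [e3]
    push_cast
    simp
  rw [e4]
  have := mul_nonneg hε.le (fr_nonneg (S⁻¹ * (S⁻¹ * H)))
  linarith

end weight

/-- **Haagerup's Cauchy-Schwarz inequality.** -/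
theorem hcs {z : J → Matrix K K ℂ} {c : J → Matrix Q Q ℂ} {γ : ℝ} (hγ0 : 0 ≤ γ)
    (hγ : ∀ R S : Matrix K K ℂ,
      ‖∑ j, trace (Rᴴ * z j * S * (z j)ᴴ)‖ ≤ γ * √(fr R) * √(fr S))
    (hc : UB c) (X H : Matrix K Q ℂ) :
    ‖∑ j, trace (Xᴴ * z j * H * c j)‖ ≤ √γ * √(fr X) * √(fr H) := by
  have key : ∀ ε : ℝ, 0 < ε → ‖∑ j, trace (Xᴴ * z j * H * c j)‖ ^ 2
      ≤ γ * √(fr X + ε * Fintype.card K) * √(fr H + ε * Fintype.card K) *
        (√(fr H) * √(fr X)) := by
    intro ε hε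
    obtain ⟨S, hS, -, hGG⟩ := exists_weight H hε
    obtain ⟨T, hT, -, hLL⟩ := exists_weight X hε
    have hSu : IsUnit S.det := (Matrix.isUnit_iff_isUnit_det S).1 hS.isUnit
    have hTu : IsUnit T.det := (Matrix.isUnit_iff_isUnit_det T).1 hT.isUnit
    have hSh : Sᴴ = S := hS.isHermitian.eq
    have hTh : Tᴴ = T := hT.isHermitian.eq
    have hSi : (S⁻¹)ᴴ = S⁻¹ := by rw [conjTranspose_nonsing_inv, hSh]
    have hTi : (T⁻¹)ᴴ = T⁻¹ := by rw [conjTranspose_nonsing_inv, hTh]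
    have e1 : ∀ j, trace (Xᴴ * z j * H * c j)
        = trace ((T * z j * S) * (S⁻¹ * H * c j * Xᴴ * T⁻¹)) := by
      intro j
      have h1 : (T * z j * S) * (S⁻¹ * H * c j * Xᴴ * T⁻¹)
          = T * ((z j * H * c j) * Xᴴ * T⁻¹) := by
        simp only [Matrix.mul_assoc]
        rw [Matrix.mul_nonsing_inv_cancel_left _ _ hSu]
      have h2 : Xᴴ * z j * H * c j = Xᴴ * (z j * H * c j) := by simp only [Matrix.mul_assoc]
      rw [h1, h2, trace_mul_comm T, Matrix.mul_assoc _ T⁻¹ T, Matrix.nonsing_inv_mul _ hTu,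
        Matrix.mul_one, trace_mul_comm Xᴴ]
    have e2 : ∑ j, fr (T * z j * S) ≤ γ * √(fr (T * T)) * √(fr (S * S)) := by
      have h1 : ((∑ j, fr (T * z j * S) : ℝ) : ℂ)
          = ∑ j, trace ((T * T)ᴴ * z j * (S * S) * (z j)ᴴ) := by
        push_cast
        refine Finset.sum_congr rfl fun j _ => ?_
        rw [← trace_mul_conjTranspose_self]
        simp only [conjTranspose_mul, hSh, hTh]
        have h3 : T * z j * S * (S * ((z j)ᴴ * T)) = T * (z j * (S * S) * (z j)ᴴ * T) := by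
          simp only [Matrix.mul_assoc]
        rw [h3, trace_mul_comm T, Matrix.mul_assoc _ T T, trace_mul_comm _ (T * T)]
        simp only [Matrix.mul_assoc]
      have h2 := hγ (T * T) (S * S)
      rw [← h1, Complex.norm_real, Real.norm_eq_abs] at h2
      exact (le_abs_self _).trans h2
    have e3 : ∑ j, fr (S⁻¹ * H * c j * Xᴴ * T⁻¹) ≤ √(fr H) * √(fr X) := by
      set N := Hᴴ * (S⁻¹ * S⁻¹) * H with hN
      set P := Xᴴ * (T⁻¹ * T⁻¹) * X with hP
      have h1 : ((∑ j, fr (S⁻¹ * H * c j * Xᴴ * T⁻¹) : ℝ) : ℂ)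
          = ∑ j, trace ((N * c j) * (P * (c j)ᴴ)) := by
        push_cast
        refine Finset.sum_congr rfl fun j _ => ?_
        rw [← trace_mul_conjTranspose_self]
        simp only [conjTranspose_mul, conjTranspose_conjTranspose, hSi, hTi]
        have h3 : S⁻¹ * H * c j * Xᴴ * T⁻¹ * (T⁻¹ * (X * ((c j)ᴴ * (Hᴴ * S⁻¹))))
            = S⁻¹ * (H * c j * P * (c j)ᴴ * Hᴴ * S⁻¹) := by
          rw [hP]
          simp only [Matrix.mul_assoc]
        have h4 : H * c j * P * (c j)ᴴ * Hᴴ * S⁻¹ * S⁻¹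
            = (H * c j * P * (c j)ᴴ) * (Hᴴ * (S⁻¹ * S⁻¹)) := by
          simp only [Matrix.mul_assoc]
        have h5 : Hᴴ * (S⁻¹ * S⁻¹) * (H * c j * P * (c j)ᴴ) = (N * c j) * (P * (c j)ᴴ) := by
          rw [hN]
          simp only [Matrix.mul_assoc]
        rw [h3, trace_mul_comm S⁻¹, h4, trace_mul_comm, h5]
      have h2 := norm_sum_trace_le (fun j => N * c j) (fun j => P * (c j)ᴴ)
      rw [← h1, Complex.norm_real, Real.norm_eq_abs] at h2
      refine (le_abs_self _).trans (h2.trans ?_)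
      have h6 : ∑ j, fr (N * c j) ≤ fr H :=
        (hc.fr_mul_right N).trans (fr_gauge hε hS hGG)
      have h7 : ∑ j, fr (P * (c j)ᴴ) ≤ fr X :=
        (hc.fr_mul_conjTranspose P).trans (fr_gauge hε hT hLL)
      gcongr
    have e4 := norm_sum_trace_le (fun j => T * z j * S) (fun j => S⁻¹ * H * c j * Xᴴ * T⁻¹)
    have e5 : ∑ j, trace (Xᴴ * z j * H * c j)
        = ∑ j, trace ((T * z j * S) * (S⁻¹ * H * c j * Xᴴ * T⁻¹)) :=
      Finset.sum_congr rfl fun j _ => e1 j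
    rw [e5]
    calc _ ≤ (√(∑ j, fr (T * z j * S)) * √(∑ j, fr (S⁻¹ * H * c j * Xᴴ * T⁻¹))) ^ 2 := by
          gcongr
      _ = (∑ j, fr (T * z j * S)) * ∑ j, fr (S⁻¹ * H * c j * Xᴴ * T⁻¹) := by
          rw [mul_pow, Real.sq_sqrt (Finset.sum_nonneg fun _ _ => fr_nonneg _),
            Real.sq_sqrt (Finset.sum_nonneg fun _ _ => fr_nonneg _)]
      _ ≤ (γ * √(fr (T * T)) * √(fr (S * S))) * (√(fr H) * √(fr X)) := by
          have := Finset.sum_nonneg (s := Finset.univ) fun j (_ : j ∈ Finset.univ) =>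
            fr_nonneg (S⁻¹ * H * c j * Xᴴ * T⁻¹)
          gcongr
      _ = _ := by rw [fr_weight hS hGG, fr_weight hT hLL]
  have hlim : Filter.Tendsto (fun ε : ℝ => γ * √(fr X + ε * Fintype.card K) *
      √(fr H + ε * Fintype.card K) * (√(fr H) * √(fr X))) (nhdsWithin 0 (Set.Ioi 0))
      (nhds (γ * √(fr X + 0 * Fintype.card K) * √(fr H + 0 * Fintype.card K) *
        (√(fr H) * √(fr X)))) := by
    apply Filter.Tendsto.mono_left _ nhdsWithin_le_nhds
    apply Continuous.tendsto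
    fun_prop
  have h1 : ‖∑ j, trace (Xᴴ * z j * H * c j)‖ ^ 2
      ≤ γ * √(fr X + 0 * Fintype.card K) * √(fr H + 0 * Fintype.card K) *
        (√(fr H) * √(fr X)) := by
    refine ge_of_tendsto hlim ?_
    filter_upwards [self_mem_nhdsWithin] with ε hε
    exact key ε hε
  have h2 : γ * √(fr X + 0 * Fintype.card K) * √(fr H + 0 * Fintype.card K) *
        (√(fr H) * √(fr X)) = (√γ * √(fr X) * √(fr H)) ^ 2 := by
    rw [zero_mul, add_zero, add_zero, mul_pow, mul_pow, Real.sq_sqrt hγ0,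
      Real.sq_sqrt (fr_nonneg _), Real.sq_sqrt (fr_nonneg _)]
    have h3 := Real.mul_self_sqrt (fr_nonneg X)
    have h4 := Real.mul_self_sqrt (fr_nonneg H)
    calc γ * √(fr X) * √(fr H) * (√(fr H) * √(fr X))
        = γ * (√(fr X) * √(fr X)) * (√(fr H) * √(fr H)) := by ring
      _ = _ := by rw [h3, h4]
  rw [h2] at h1
  exact le_of_sq_le_sq h1 (by positivity)

end T2H75.JCB
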