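import Mathlib
import Pool.Agent.T2H75.JCB.Hcs
import Pool.Agent.T2H75.JCB.Amp

/-!
# The coefficient functionals form a complete contraction into `R ∩ C`
-/

set_option autoImplicit false

open scoped ENNReal InnerProductSpace CStarMatrix

namespace T2H75.JCB

variable {ι : Type} [DecidableEq ι]

/-- The coefficient functional. -/
noncomputable def cf (i : ι) : Al ι →ₗ[ℂ] ℂ where
  toFun a := (inc a (ev []) : Wd ι → ℂ) [(i, true)]
  map_add' a b := by simp
  map_smul' c a := by simp

theorem cf_apply (i : ι) (a : Al ι) : cf i a = (inc a (ev []) : Wd ι → ℂ) [(i, true)] := rfl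

theorem cf_apply' (i : ι) (a : Al ι) :
    cf i a = star ((inc (star a) (ev []) : Wd ι → ℂ) [(i, false)]) := by
  rw [cf_apply, ← inner_ev_left, coef_eq i (inc_mem a), ← inner_ev_right]
  rw [map_star, ContinuousLinearMap.star_eq_adjoint, ContinuousLinearMap.adjoint_inner_left]

theorem cf_ga (i j : ι) : cf i (ga j) = if i = j then 1 else 0 := by
  rw [cf_apply, inc_ga, gg_vac, ev_apply]
  simp

omit [DecidableEq ι] in
theorem sum_sq_le {κ : Type*} [Fintype κ] (e : κ → Wd ι) (he : Function.Injective e) (f : FK ι) :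
    ∑ k, ‖(f : Wd ι → ℂ) (e k)‖ ^ 2 ≤ ‖f‖ ^ 2 := by
  have h := lp.sum_rpow_le_norm_rpow (by norm_num : (0 : ℝ) < (2 : ℝ≥0∞).toReal) f
    (Finset.univ.map ⟨e, he⟩)
  rw [Finset.sum_map] at h
  simpa using h

/-- Families with a row and a column bound. -/
structure UBs {Q J : Type*} [Fintype Q] [Fintype J] (t : ℝ) (c : J → Matrix Q Q ℂ) : Prop where
  col : ∀ v : Q → ℂ, ∑ j, ∑ q, ‖∑ q', c j q q' * v q'‖ ^ 2 ≤ t ^ 2 * ∑ q, ‖v q‖ ^ 2
  row : ∀ v : Q → ℂ, ∑ j, ∑ q', ‖∑ q, v q * c j q q'‖ ^ 2 ≤ t ^ 2 * ∑ q, ‖v q‖ ^ 2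

theorem norm_ev (w : Wd ι) : ‖(ev w : FK ι)‖ = 1 := by
  unfold ev
  rw [lp.norm_single (by norm_num)]
  simp

theorem UBs_cf {κ : Type} [Fintype κ] (e : κ → ι) (he : Function.Injective e) {n : ℕ}
    (a : CStarMatrix (Fin n) (Fin n) (Al ι)) :
    UBs ‖a‖ (fun k => Matrix.of fun r s => cf (e k) (a r s)) where
  col v := by
    have h1 := amp_le (Fin n) a (fun s => v s • ev [])
    have h2 : ∀ s, ‖v s • (ev [] : FK ι)‖ = ‖v s‖ := by
      intro s
      rw [norm_smul, norm_ev, mul_one]
    simp only [h2] at h1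
    refine le_trans ?_ h1
    rw [Finset.sum_comm]
    refine Finset.sum_le_sum fun r _ => ?_
    have h3 := sum_sq_le (fun k => [(e k, true)]) (fun k k' h => he (by simpa using h))
      (∑ s, inc (a r s) (v s • ev []))
    refine le_trans (le_of_eq (Finset.sum_congr rfl fun k _ => ?_)) h3
    congr 2
    rw [← inner_ev_left, inner_sum]
    refine Finset.sum_congr rfl fun s _ => ?_
    rw [map_smul, inner_smul_right, inner_ev_left, Matrix.of_apply, cf_apply, mul_comm]
  row v := by
    have h1 := amp_le (Fin n) (star a) (fun r => star (v r) • ev [])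
    have h2 : ∀ s, ‖star (v s) • (ev [] : FK ι)‖ = ‖v s‖ := by
      intro s
      rw [norm_smul, norm_ev, mul_one, norm_star]
    simp only [h2, norm_star] at h1
    refine le_trans ?_ h1
    rw [Finset.sum_comm]
    refine Finset.sum_le_sum fun s _ => ?_
    have h3 := sum_sq_le (fun k => [(e k, false)]) (fun k k' h => he (by simpa using h))
      (∑ r, inc ((star a) s r) (star (v r) • ev []))
    refine le_trans (le_of_eq (Finset.sum_congr rfl fun k _ => ?_)) h3
    rw [← norm_star (∑ q, v q * _)]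
    congr 2
    rw [← inner_ev_left, inner_sum, star_sum]
    refine Finset.sum_congr rfl fun r _ => ?_
    rw [map_smul, inner_smul_right, inner_ev_left, Matrix.of_apply, cf_apply', star_mul',
      star_star, CStarMatrix.star_apply]

end T2H75.JCB
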