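import Mathlib
import Pool.Agent.T2H75.JCB.Hcs

/-!
# Jointly completely bounded norms of matrix valued bilinear maps on `(R ∩ C) × (R ∩ C)`
-/

set_option autoImplicit false

open Matrix
open scoped Kronecker

namespace T2H75.JCB

variable {I J L P Q : Type} [Fintype I] [Fintype J] [Fintype L] [Fintype P] [Fintype Q]

/-- `x` defines a bilinear map with matrix values on `(R ∩ C) × (R ∩ C)`, whose jointly completely
bounded norm is at most `Λ`. -/
def Bd (x : I → J → Matrix L L ℂ) (Λ : ℝ) : Prop :=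
  ∀ (P Q : Type) [Fintype P] [Fintype Q] (a : I → Matrix P P ℂ) (b : J → Matrix Q Q ℂ),
    UB a → UB b → ∀ X H : Matrix (L × P) Q ℂ,
      ‖∑ j, trace (Xᴴ * (∑ i, x i j ⊗ₖ a i) * H * (b j)ᵀ)‖ ≤ Λ * √(fr X) * √(fr H)

/-- Reindexing. -/
def rix (S : Matrix (L × P) (L × P) ℂ) : Matrix ((L × L) × P) P ℂ :=
  fun u p => S (u.1.1, u.2) (u.1.2, p)

theorem fr_rix (S : Matrix (L × P) (L × P) ℂ) : fr (rix S) = fr S := by
  simp only [fr, rix, Fintype.sum_prod_type]
  refine Finset.sum_congr rfl fun l _ => ?_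
  rw [Finset.sum_comm]

theorem trace_rix (R W : Matrix (L × P) (L × P) ℂ) :
    trace ((rix R)ᴴ * rix W) = trace (Rᴴ * W) := by
  simp only [trace, diag_apply, mul_apply, conjTranspose_apply, rix, Fintype.sum_prod_type]
  conv_rhs => rw [Finset.sum_comm]
  exact Finset.sum_congr rfl fun _ _ => Finset.sum_comm

theorem rix_mul (x y : Matrix L L ℂ) (a b : Matrix P P ℂ) (S : Matrix (L × P) (L × P) ℂ) :
    rix ((x ⊗ₖ a) * S * (y ⊗ₖ b)ᴴ) = ((x ⊗ₖ y.map star) ⊗ₖ a) * rix S * (b.map star)ᵀ := by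
  ext ⟨⟨l, l'⟩, p⟩ p'
  simp only [rix, mul_apply, conjTranspose_apply, kroneckerMap_apply, Fintype.sum_prod_type,
    Finset.sum_mul, transpose_apply, map_apply, star_mul']
  rw [Finset.sum_comm]
  refine Finset.sum_congr rfl fun q _ => ?_
  rw [Finset.sum_comm]
  refine Finset.sum_congr rfl fun m _ => Finset.sum_congr rfl fun m' _ =>
    Finset.sum_congr rfl fun q' _ => ?_
  ring

/-- The square `x ⋆ x̄` of the tensor `x`. -/
def M2 (x : I → J → Matrix L L ℂ) : I → I → Matrix (L × L) (L × L) ℂ :=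
  fun i i' => ∑ j, x i j ⊗ₖ (x i' j).map star

omit [Fintype L] [Fintype P] in
theorem rix_sum {ι : Type*} (s : Finset ι) (S : ι → Matrix (L × P) (L × P) ℂ) :
    rix (∑ i ∈ s, S i) = ∑ i ∈ s, rix (S i) := by
  ext u p
  simp [rix, Matrix.sum_apply]

variable [DecidableEq L]

/-- One step of the iteration. -/
theorem Bd.of_M2 {x : I → J → Matrix L L ℂ} {γ : ℝ} (hγ : 0 ≤ γ) (h : Bd (M2 x) γ) :
    Bd x (√γ) := by
  classical
  intro P Q _ _ a b ha hb X H
  refine hcs (z := fun j => ∑ i, x i j ⊗ₖ a i) (c := fun j => (b j)ᵀ) hγ ?_ hb.transpose X H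
  intro R S
  have h1 := h P P a (fun i => (a i).map star) ha ha.conj (rix R) (rix S)
  rw [fr_rix, fr_rix] at h1
  refine le_of_eq_of_le (congrArg norm ?_) h1
  have e1 : ∀ j, trace (Rᴴ * (∑ i, x i j ⊗ₖ a i) * S * (∑ i, x i j ⊗ₖ a i)ᴴ)
      = ∑ i', ∑ i, trace ((rix R)ᴴ *
        (((x i j ⊗ₖ (x i' j).map star) ⊗ₖ a i) * rix S * ((a i').map star)ᵀ)) := by
    intro j
    have e2 : Rᴴ * (∑ i, x i j ⊗ₖ a i) * S * (∑ i, x i j ⊗ₖ a i)ᴴ
        = ∑ i', ∑ i, Rᴴ * ((x i j ⊗ₖ a i) * S * (x i' j ⊗ₖ a i')ᴴ) := by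
      rw [conjTranspose_sum, Matrix.mul_sum]
      refine Finset.sum_congr rfl fun i' _ => ?_
      rw [Matrix.mul_sum, Matrix.sum_mul, Matrix.sum_mul]
      refine Finset.sum_congr rfl fun i _ => ?_
      simp only [Matrix.mul_assoc]
    rw [e2, trace_sum]
    refine Finset.sum_congr rfl fun i' _ => ?_
    rw [trace_sum]
    refine Finset.sum_congr rfl fun i _ => ?_
    rw [← rix_mul, trace_rix]
  have e3 : ∀ i', trace ((rix R)ᴴ * (∑ i, M2 x i i' ⊗ₖ a i) * rix S * ((a i').map star)ᵀ)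
      = ∑ i, ∑ j, trace ((rix R)ᴴ *
        (((x i j ⊗ₖ (x i' j).map star) ⊗ₖ a i) * rix S * ((a i').map star)ᵀ)) := by
    intro i'
    have e4 : ∑ i, M2 x i i' ⊗ₖ a i
        = ∑ i, ∑ j, (x i j ⊗ₖ (x i' j).map star) ⊗ₖ a i := by
      refine Finset.sum_congr rfl fun i _ => ?_
      ext u v
      simp only [M2, kroneckerMap_apply, Matrix.sum_apply, Finset.sum_mul]
    rw [e4, Matrix.mul_sum, Matrix.sum_mul, Matrix.sum_mul, trace_sum]
    refine Finset.sum_congr rfl fun i _ => ?_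
    rw [Matrix.mul_sum, Matrix.sum_mul, Matrix.sum_mul, trace_sum]
    refine Finset.sum_congr rfl fun j _ => ?_
    simp only [Matrix.mul_assoc]
  rw [Finset.sum_congr rfl fun j _ => e1 j, Finset.sum_congr rfl fun i' _ => e3 i']
  rw [Finset.sum_comm]
  refine Finset.sum_congr rfl fun i' _ => ?_
  rw [Finset.sum_comm]

/-- The Schur test for bilinear sums. -/
theorem schur_sum {S T : Type*} [Fintype S] [Fintype T] (w : S → T → ℝ) (hw : ∀ s t, 0 ≤ w s t)
    (u : S → ℝ) (v : T → ℝ) (hu : ∀ s, 0 < u s) (hv : ∀ t, 0 < v t) {lam : ℝ} (hl : 0 ≤ lam)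
    (h1 : ∀ s, ∑ t, w s t * v t ≤ lam * u s) (h2 : ∀ t, ∑ s, w s t * u s ≤ lam * v t)
    (f : S → ℝ) (g : T → ℝ) :
    ∑ s, ∑ t, w s t * (f s * g t) ≤ lam * √(∑ s, f s ^ 2) * √(∑ t, g t ^ 2) := by
  have e1 : ∑ s, ∑ t, w s t * (f s * g t)
      = ∑ p : S × T, (√(w p.1 p.2 * v p.2 / u p.1) * f p.1) *
        (√(w p.1 p.2 * u p.1 / v p.2) * g p.2) := by
    rw [Fintype.sum_prod_type]
    refine Finset.sum_congr rfl fun s _ => Finset.sum_congr rfl fun t _ => ?_
    have h3 : √(w s t * v t / u s) * √(w s t * u s / v t) = w s t := by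
      have hus := hu s
      have hvt := hv t
      rw [← Real.sqrt_mul (by have := hw s t; positivity)]
      have : w s t * v t / u s * (w s t * u s / v t) = w s t * w s t := by
        field_simp
      rw [this, Real.sqrt_mul_self (hw s t)]
    calc w s t * (f s * g t)
        = (√(w s t * v t / u s) * √(w s t * u s / v t)) * (f s * g t) := by rw [h3]
      _ = _ := by ring
  rw [e1]
  refine (Real.sum_mul_le_sqrt_mul_sqrt _ _ _).trans ?_
  have e2 : ∑ p : S × T, (√(w p.1 p.2 * v p.2 / u p.1) * f p.1) ^ 2 ≤ lam * ∑ s, f s ^ 2 := by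
    rw [Fintype.sum_prod_type, Finset.mul_sum]
    refine Finset.sum_le_sum fun s _ => ?_
    have : ∀ t, (√(w s t * v t / u s) * f s) ^ 2 = w s t * v t * (f s ^ 2 / u s) := by
      intro t
      have := hu s
      have := hv t
      rw [mul_pow, Real.sq_sqrt (by have := hw s t; positivity)]
      ring
    simp only [this]
    rw [← Finset.sum_mul]
    have h4 := h1 s
    have h5 := hu s
    calc (∑ t, w s t * v t) * (f s ^ 2 / u s) ≤ (lam * u s) * (f s ^ 2 / u s) := by gcongr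
      _ = lam * f s ^ 2 := by field_simp
  have e3 : ∑ p : S × T, (√(w p.1 p.2 * u p.1 / v p.2) * g p.2) ^ 2 ≤ lam * ∑ t, g t ^ 2 := by
    rw [Fintype.sum_prod_type, Finset.sum_comm, Finset.mul_sum]
    refine Finset.sum_le_sum fun t _ => ?_
    have : ∀ s, (√(w s t * u s / v t) * g t) ^ 2 = w s t * u s * (g t ^ 2 / v t) := by
      intro s
      have := hu s
      have := hv t
      rw [mul_pow, Real.sq_sqrt (by have := hw s t; positivity)]
      ring
    simp only [this]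
    rw [← Finset.sum_mul]
    have h4 := h2 t
    have h5 := hv t
    calc (∑ s, w s t * u s) * (g t ^ 2 / v t) ≤ (lam * v t) * (g t ^ 2 / v t) := by gcongr
      _ = lam * g t ^ 2 := by field_simp
  calc _ ≤ √(lam * ∑ s, f s ^ 2) * √(lam * ∑ t, g t ^ 2) := by gcongr
    _ = (√lam * √lam) * √(∑ s, f s ^ 2) * √(∑ t, g t ^ 2) := by
        rw [Real.sqrt_mul hl, Real.sqrt_mul hl]; ring
    _ = _ := by rw [Real.mul_self_sqrt hl]

/-- Horizontal slices. -/
def sl (X : Matrix (L × P) Q ℂ) (l : L) : Matrix P Q ℂ := fun p q => X (l, p) q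

omit [DecidableEq L] in
theorem sum_fr_sl (X : Matrix (L × P) Q ℂ) : ∑ l, fr (sl X l) = fr X := by
  simp only [fr, sl, Fintype.sum_prod_type]

omit [DecidableEq L] in
theorem trace_sl (x : Matrix L L ℂ) (a : Matrix P P ℂ) (c : Matrix Q Q ℂ)
    (X H : Matrix (L × P) Q ℂ) :
    trace (Xᴴ * (x ⊗ₖ a) * H * c)
      = ∑ l, ∑ m, x l m * trace (((sl X l)ᴴ * a) * (sl H m * c)) := by
  have e1 : Xᴴ * (x ⊗ₖ a) * H * c = ∑ l, ∑ m, x l m • (((sl X l)ᴴ * a) * (sl H m * c)) := by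
    have e2 : ∀ Y : Matrix (L × P) Q ℂ, Xᴴ * Y = ∑ l, (sl X l)ᴴ * sl Y l := by
      intro Y
      ext q q'
      simp only [mul_apply, conjTranspose_apply, Matrix.sum_apply, Fintype.sum_prod_type, sl]
    have e3 : ∀ l, sl ((x ⊗ₖ a) * (H * c)) l = ∑ m, x l m • (a * (sl H m * c)) := by
      intro l
      have e4 : ∀ m, sl H m * c = sl (H * c) m := by
        intro m
        ext p q
        simp only [mul_apply, sl]
      ext p q
      simp only [e4, Matrix.sum_apply, Matrix.smul_apply, mul_apply, sl, kroneckerMap_apply,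
        Fintype.sum_prod_type, smul_eq_mul, Finset.mul_sum, mul_assoc]
    rw [Matrix.mul_assoc, Matrix.mul_assoc, e2]
    refine Finset.sum_congr rfl fun l _ => ?_
    rw [e3, Matrix.mul_sum]
    refine Finset.sum_congr rfl fun m _ => ?_
    rw [Matrix.mul_smul, Matrix.mul_assoc]
  rw [e1, trace_sum]
  refine Finset.sum_congr rfl fun l _ => ?_
  rw [trace_sum]
  refine Finset.sum_congr rfl fun m _ => ?_
  rw [trace_smul, smul_eq_mul]

omit [Fintype L] [DecidableEq L] in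
theorem norm_trace_le (A : Matrix P Q ℂ) (B : Matrix Q P ℂ) :
    ‖trace (A * B)‖ ≤ √(fr A) * √(fr B) := by
  simpa using norm_sum_trace_le (J := Unit) (fun _ => A) (fun _ => B)

omit [DecidableEq L] in
/-- The Schur test gives a bound for tensors with nonnegative entries. -/
theorem Bd.of_schur (w : I → J → L → L → ℝ) (hw : ∀ i j l m, 0 ≤ w i j l m)
    (u : I → L → ℝ) (v : J → L → ℝ) (hu : ∀ i l, 0 < u i l) (hv : ∀ j m, 0 < v j m)
    {lam : ℝ} (hl : 0 ≤ lam)
    (h1 : ∀ i l, ∑ j, ∑ m, w i j l m * v j m ≤ lam * u i l)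
    (h2 : ∀ j m, ∑ i, ∑ l, w i j l m * u i l ≤ lam * v j m) :
    Bd (fun i j => Matrix.of fun l m => (w i j l m : ℂ)) lam := by
  intro P Q _ _ a b ha hb X H
  have e1 : ∀ j, trace (Xᴴ * (∑ i, (Matrix.of fun l m => (w i j l m : ℂ)) ⊗ₖ a i) * H * (b j)ᵀ)
      = ∑ i, ∑ l, ∑ m, (w i j l m : ℂ) * trace (((sl X l)ᴴ * a i) * (sl H m * (b j)ᵀ)) := by
    intro j
    rw [Matrix.mul_sum, Matrix.sum_mul, Matrix.sum_mul, trace_sum]
    refine Finset.sum_congr rfl fun i _ => ?_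
    rw [trace_sl]
    simp only [Matrix.of_apply]
  rw [Finset.sum_congr rfl fun j _ => e1 j]
  set f : I × L → ℝ := fun s => √(fr ((sl X s.2)ᴴ * a s.1)) with hf
  set g : J × L → ℝ := fun t => √(fr (sl H t.2 * (b t.1)ᵀ)) with hg
  have e2 : ‖∑ j, ∑ i, ∑ l, ∑ m, (w i j l m : ℂ) *
      trace (((sl X l)ᴴ * a i) * (sl H m * (b j)ᵀ))‖
      ≤ ∑ s : I × L, ∑ t : J × L, w s.1 t.1 s.2 t.2 * (f s * g t) := by
    rw [Fintype.sum_prod_type]
    simp only [Fintype.sum_prod_type]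
    rw [Finset.sum_comm]
    refine (norm_sum_le _ _).trans (Finset.sum_le_sum fun i _ => ?_)
    rw [Finset.sum_comm]
    refine (norm_sum_le _ _).trans (Finset.sum_le_sum fun l _ => ?_)
    refine (norm_sum_le _ _).trans (Finset.sum_le_sum fun j _ => ?_)
    refine (norm_sum_le _ _).trans (Finset.sum_le_sum fun m _ => ?_)
    rw [norm_mul, Complex.norm_real, Real.norm_of_nonneg (hw _ _ _ _)]
    exact mul_le_mul_of_nonneg_left (norm_trace_le _ _) (hw _ _ _ _)
  refine e2.trans ((schur_sum (fun (s : I × L) (t : J × L) => w s.1 t.1 s.2 t.2)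
    (fun _ _ => hw _ _ _ _) (fun s => u s.1 s.2) (fun t => v t.1 t.2) (fun _ => hu _ _)
    (fun _ => hv _ _) hl ?_ ?_ f g).trans ?_)
  · intro s
    rw [Fintype.sum_prod_type]
    exact h1 s.1 s.2
  · intro t
    rw [Fintype.sum_prod_type]
    exact h2 t.1 t.2
  · have e3 : ∑ s, f s ^ 2 ≤ fr X := by
      rw [Fintype.sum_prod_type, Finset.sum_comm, ← sum_fr_sl X]
      refine Finset.sum_le_sum fun l _ => ?_
      have := ha.fr_mul_right (sl X l)ᴴ
      rw [fr_conjTranspose] at this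
      refine le_trans (le_of_eq (Finset.sum_congr rfl fun i _ => ?_)) this
      exact Real.sq_sqrt (fr_nonneg _)
    have e4 : ∑ t, g t ^ 2 ≤ fr H := by
      rw [Fintype.sum_prod_type, Finset.sum_comm, ← sum_fr_sl H]
      refine Finset.sum_le_sum fun m _ => ?_
      have := hb.transpose.fr_mul_right (sl H m)
      refine le_trans (le_of_eq (Finset.sum_congr rfl fun j _ => ?_)) this
      exact Real.sq_sqrt (fr_nonneg _)
    gcongr

end T2H75.JCB
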