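import Mathlib
import Pool.Agent.T2H75.JCB.Bd

/-!
# Tensor powers of the `W` tensor
-/

set_option autoImplicit false

open Matrix
open scoped Kronecker

namespace T2H75.JCB

/-- The `W` tensor: exactly one of the four bits is set. -/
def wt (i j a b : Bool) : ℕ := if i.toNat + j.toNat + a.toNat + b.toNat = 1 then 1 else 0

def w2 (i i' a1 a2 b1 b2 : Bool) : ℕ := ∑ j : Bool, wt i j a1 b1 * wt i' j a2 b2

def w4 (i k a1 a2 a3 a4 b1 b2 b3 b4 : Bool) : ℕ :=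
  ∑ i' : Bool, w2 i i' a1 a2 b1 b2 * w2 k i' a3 a4 b3 b4

def u0 (i a1 a2 a3 a4 : Bool) : ℕ :=
  [14, 7, 1, 5, 1, 3, 1, 1, 11, 1, 5, 2, 8, 6, 1, 4, 11, 1, 5, 2, 8, 6, 1, 4, 1, 1, 1, 1, 1, 1, 1,
    1].getD (16 * i.toNat + 8 * a1.toNat + 4 * a2.toNat + 2 * a3.toNat + a4.toNat) 1

def v0 (i a1 a2 a3 a4 : Bool) : ℕ :=
  [14, 1, 11, 8, 7, 3, 1, 6, 1, 1, 5, 1, 5, 1, 2, 4, 11, 8, 1, 1, 1, 6, 1, 1, 5, 1, 1, 1, 2, 4, 1,
    1].getD (16 * i.toNat + 8 * a1.toNat + 4 * a2.toNat + 2 * a3.toNat + a4.toNat) 1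

theorem u0_pos : ∀ i a1 a2 a3 a4, 0 < u0 i a1 a2 a3 a4 := by decide +kernel

theorem v0_pos : ∀ i a1 a2 a3 a4, 0 < v0 i a1 a2 a3 a4 := by decide +kernel

theorem schur_row : ∀ i a1 a2 a3 a4, 5 * (∑ k, ∑ b1, ∑ b2, ∑ b3, ∑ b4,
    w4 i k a1 a2 a3 a4 b1 b2 b3 b4 * v0 k b1 b2 b3 b4) ≤ 19 * u0 i a1 a2 a3 a4 := by
  decide +kernel

theorem schur_col : ∀ k b1 b2 b3 b4, 5 * (∑ i, ∑ a1, ∑ a2, ∑ a3, ∑ a4,
    w4 i k a1 a2 a3 a4 b1 b2 b3 b4 * u0 i a1 a2 a3 a4) ≤ 19 * v0 k b1 b2 b3 b4 := by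
  decide +kernel

/-- Sums over functions of products. -/
theorem sum_prod_fun {k : ℕ} {R : Type*} [CommSemiring R] (f : Fin k → Bool → R) :
    ∑ B : Fin k → Bool, ∏ l, f l (B l) = ∏ l, ∑ b, f l b := by
  rw [Finset.prod_univ_sum, Fintype.piFinset_univ]

theorem sum_prod_fun5 {k : ℕ} {R : Type*} [CommSemiring R]
    (g : Fin k → Bool → Bool → Bool → Bool → Bool → R) :
    ∑ K : Fin k → Bool, ∑ B1 : Fin k → Bool, ∑ B2 : Fin k → Bool, ∑ B3 : Fin k → Bool,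
      ∑ B4 : Fin k → Bool, ∏ l, g l (K l) (B1 l) (B2 l) (B3 l) (B4 l)
      = ∏ l, ∑ c, ∑ b1, ∑ b2, ∑ b3, ∑ b4, g l c b1 b2 b3 b4 := by
  rw [← sum_prod_fun]
  refine Finset.sum_congr rfl fun K _ => ?_
  rw [← sum_prod_fun]
  refine Finset.sum_congr rfl fun B1 _ => ?_
  rw [← sum_prod_fun]
  refine Finset.sum_congr rfl fun B2 _ => ?_
  rw [← sum_prod_fun]
  refine Finset.sum_congr rfl fun B3 _ => ?_
  rw [← sum_prod_fun]

/-- The tensor power of the `W` tensor. -/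
def XX (k : ℕ) : (Fin k → Bool) → (Fin k → Bool) → Matrix (Fin k → Bool) (Fin k → Bool) ℂ :=
  fun I J => Matrix.of fun A B => ((∏ l, wt (I l) (J l) (A l) (B l) : ℕ) : ℂ)

theorem M2_XX (k : ℕ) : M2 (XX k) = fun I I' => Matrix.of fun A B =>
    ((∏ l, w2 (I l) (I' l) (A.1 l) (A.2 l) (B.1 l) (B.2 l) : ℕ) : ℂ) := by
  funext I I'
  ext A B
  simp only [M2, XX, Matrix.sum_apply, kroneckerMap_apply, Matrix.of_apply, Matrix.map_apply,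
    Complex.star_def, Complex.conj_natCast, w2]
  rw [← sum_prod_fun]
  push_cast
  refine Finset.sum_congr rfl fun J _ => ?_
  rw [← Finset.prod_mul_distrib]

/-- The index set of the four legs. -/
abbrev F4 (k : ℕ) : Type :=
  ((Fin k → Bool) × (Fin k → Bool)) × ((Fin k → Bool) × (Fin k → Bool))

/-- The entries of the fourth power. -/
noncomputable def wW (k : ℕ) (I K : Fin k → Bool) (A B : F4 k) : ℝ :=
  ((∏ l, w4 (I l) (K l) (A.1.1 l) (A.1.2 l) (A.2.1 l) (A.2.2 l)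
      (B.1.1 l) (B.1.2 l) (B.2.1 l) (B.2.2 l) : ℕ) : ℝ)

noncomputable def uW (k : ℕ) (I : Fin k → Bool) (A : F4 k) : ℝ :=
  ((∏ l, u0 (I l) (A.1.1 l) (A.1.2 l) (A.2.1 l) (A.2.2 l) : ℕ) : ℝ)

noncomputable def vW (k : ℕ) (I : Fin k → Bool) (A : F4 k) : ℝ :=
  ((∏ l, v0 (I l) (A.1.1 l) (A.1.2 l) (A.2.1 l) (A.2.2 l) : ℕ) : ℝ)

theorem M2_M2_XX (k : ℕ) : M2 (M2 (XX k)) = fun I K => Matrix.of fun A B =>
    (wW k I K A B : ℂ) := by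
  funext I K
  ext A B
  rw [M2_XX]
  simp only [M2, Matrix.sum_apply, kroneckerMap_apply, Matrix.of_apply, Matrix.map_apply,
    Complex.star_def, Complex.conj_natCast, w4, wW]
  rw [← sum_prod_fun]
  push_cast
  refine Finset.sum_congr rfl fun J _ => ?_
  rw [← Finset.prod_mul_distrib]

/-- The jointly completely bounded norm of the tensor power. -/
theorem Bd_XX_aux (k : ℕ) : Bd (M2 (M2 (XX k))) ((19 / 5 : ℝ) ^ k) := by
  rw [M2_M2_XX]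
  refine Bd.of_schur (wW k) (fun _ _ _ _ => Nat.cast_nonneg _) (uW k) (vW k)
    (fun I A => Nat.cast_pos.2 (Finset.prod_pos fun l _ => u0_pos _ _ _ _ _))
    (fun K B => Nat.cast_pos.2 (Finset.prod_pos fun l _ => v0_pos _ _ _ _ _))
    (by positivity) ?_ ?_
  · intro I A
    simp only [Fintype.sum_prod_type, wW, vW, uW]
    have e1 : ∀ (K B1 B2 B3 B4 : Fin k → Bool),
        ((∏ l, w4 (I l) (K l) (A.1.1 l) (A.1.2 l) (A.2.1 l) (A.2.2 l)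
          (B1 l) (B2 l) (B3 l) (B4 l) : ℕ) : ℝ) *
        ((∏ l, v0 (K l) (B1 l) (B2 l) (B3 l) (B4 l) : ℕ) : ℝ)
        = ∏ l, ((w4 (I l) (K l) (A.1.1 l) (A.1.2 l) (A.2.1 l) (A.2.2 l)
          (B1 l) (B2 l) (B3 l) (B4 l) * v0 (K l) (B1 l) (B2 l) (B3 l) (B4 l) : ℕ) : ℝ) := by
      intro K B1 B2 B3 B4
      push_cast
      rw [← Finset.prod_mul_distrib]
    simp only [e1]
    rw [sum_prod_fun5 (fun l c b1 b2 b3 b4 => ((w4 (I l) c (A.1.1 l) (A.1.2 l) (A.2.1 l) (A.2.2 l)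
          b1 b2 b3 b4 * v0 c b1 b2 b3 b4 : ℕ) : ℝ))]
    push_cast
    have e2 : (19 / 5 : ℝ) ^ k = ∏ _l : Fin k, (19 / 5 : ℝ) := by
      rw [Finset.prod_const, Finset.card_univ, Fintype.card_fin]
    rw [e2, ← Finset.prod_mul_distrib]
    refine Finset.prod_le_prod (fun l _ => by positivity) fun l _ => ?_
    have h := schur_row (I l) (A.1.1 l) (A.1.2 l) (A.2.1 l) (A.2.2 l)
    have h' : (5 : ℝ) * (∑ c, ∑ b1, ∑ b2, ∑ b3, ∑ b4,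
      (w4 (I l) c (A.1.1 l) (A.1.2 l) (A.2.1 l) (A.2.2 l) b1 b2 b3 b4 : ℝ) *
        (v0 c b1 b2 b3 b4 : ℝ)) ≤ 19 * (u0 (I l) (A.1.1 l) (A.1.2 l) (A.2.1 l) (A.2.2 l) : ℝ) := by
      exact_mod_cast h
    linarith
  · intro K B
    simp only [Fintype.sum_prod_type, wW, vW, uW]
    have e1 : ∀ (I A1 A2 A3 A4 : Fin k → Bool),
        ((∏ l, w4 (I l) (K l) (A1 l) (A2 l) (A3 l) (A4 l)
          (B.1.1 l) (B.1.2 l) (B.2.1 l) (B.2.2 l) : ℕ) : ℝ) *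
        ((∏ l, u0 (I l) (A1 l) (A2 l) (A3 l) (A4 l) : ℕ) : ℝ)
        = ∏ l, ((w4 (I l) (K l) (A1 l) (A2 l) (A3 l) (A4 l)
          (B.1.1 l) (B.1.2 l) (B.2.1 l) (B.2.2 l) * u0 (I l) (A1 l) (A2 l) (A3 l) (A4 l) : ℕ) :
            ℝ) := by
      intro I A1 A2 A3 A4
      push_cast
      rw [← Finset.prod_mul_distrib]
    simp only [e1]
    rw [sum_prod_fun5 (fun l i a1 a2 a3 a4 => ((w4 i (K l) a1 a2 a3 a4
      (B.1.1 l) (B.1.2 l) (B.2.1 l) (B.2.2 l) * u0 i a1 a2 a3 a4 : ℕ) : ℝ))]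
    push_cast
    have e2 : (19 / 5 : ℝ) ^ k = ∏ _l : Fin k, (19 / 5 : ℝ) := by
      rw [Finset.prod_const, Finset.card_univ, Fintype.card_fin]
    rw [e2, ← Finset.prod_mul_distrib]
    refine Finset.prod_le_prod (fun l _ => by positivity) fun l _ => ?_
    have h := schur_col (K l) (B.1.1 l) (B.1.2 l) (B.2.1 l) (B.2.2 l)
    have h' : (5 : ℝ) * (∑ i, ∑ a1, ∑ a2, ∑ a3, ∑ a4,
      (w4 i (K l) a1 a2 a3 a4 (B.1.1 l) (B.1.2 l) (B.2.1 l) (B.2.2 l) : ℝ) *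
        (u0 i a1 a2 a3 a4 : ℝ)) ≤ 19 * (v0 (K l) (B.1.1 l) (B.1.2 l) (B.2.1 l) (B.2.2 l) : ℝ) := by
      exact_mod_cast h
    linarith

/-- The jointly completely bounded norm of the `4 l`-th tensor power is at most `(19/5)^l`. -/
theorem Bd_XX (l : ℕ) : Bd (XX (4 * l)) ((19 / 5 : ℝ) ^ l) := by
  have h1 := ((Bd_XX_aux (4 * l)).of_M2 (by positivity)).of_M2 (by positivity)
  have h2 : √(√((19 / 5 : ℝ) ^ (4 * l))) = (19 / 5 : ℝ) ^ l := by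
    have e1 : (19 / 5 : ℝ) ^ (4 * l) = (((19 / 5 : ℝ) ^ l) ^ 2) ^ 2 := by ring
    rw [e1, Real.sqrt_sq (by positivity), Real.sqrt_sq (by positivity)]
  rw [h2] at h1
  exact h1

end T2H75.JCB
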