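import Mathlib
import Pool.Agent.T2H75.JCB.W
import Pool.Agent.T2H75.JCB.Coef

/-!
# The jointly completely bounded bilinear map
-/

set_option autoImplicit false

open Matrix
open scoped ENNReal InnerProductSpace CStarMatrix Kronecker

namespace T2H75.JCB

section bd

variable {I J L P Q : Type} [Fintype I] [Fintype J] [Fintype L] [Fintype P] [Fintype Q]

theorem Bd.norm_le {x : I → J → Matrix L L ℂ} {Λ : ℝ} (hΛ : 0 ≤ Λ) (hx : Bd x Λ)
    {a : I → Matrix P P ℂ} {b : J → Matrix Q Q ℂ} (ha : UB a) (hb : UB b)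
    (H : Matrix (L × P) Q ℂ) :
    fr (∑ j, (∑ i, x i j ⊗ₖ a i) * H * (b j)ᵀ) ≤ Λ ^ 2 * fr H := by
  set Z := ∑ j, (∑ i, x i j ⊗ₖ a i) * H * (b j)ᵀ with hZ
  have h1 := hx P Q a b ha hb Z H
  have h2 : ∑ j, trace (Zᴴ * (∑ i, x i j ⊗ₖ a i) * H * (b j)ᵀ) = (fr Z : ℂ) := by
    rw [← trace_conjTranspose_mul_self, ← trace_sum]
    congr 1
    conv_rhs => rw [hZ, Matrix.mul_sum]
    rw [← hZ]
    refine Finset.sum_congr rfl fun j _ => ?_
    simp only [Matrix.mul_assoc]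
  rw [h2, Complex.norm_real, Real.norm_of_nonneg (fr_nonneg _)] at h1
  have h3 : √(fr Z) * √(fr Z) = fr Z := Real.mul_self_sqrt (fr_nonneg _)
  have h4 : √(fr H) * √(fr H) = fr H := Real.mul_self_sqrt (fr_nonneg _)
  have h5 := Real.sqrt_nonneg (fr Z)
  have h6 := Real.sqrt_nonneg (fr H)
  have h7 : √(fr Z) ≤ Λ * √(fr H) := by
    by_contra hcon
    push Not at hcon
    have : 0 < √(fr Z) := lt_of_le_of_lt (by positivity) hcon
    nlinarith
  calc fr Z = √(fr Z) * √(fr Z) := h3.symm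
    _ ≤ (Λ * √(fr H)) * (Λ * √(fr H)) := by gcongr
    _ = Λ ^ 2 * (√(fr H) * √(fr H)) := by ring
    _ = _ := by rw [h4]

theorem UBs.zero {t : ℝ} {c : J → Matrix Q Q ℂ} (hc : UBs t c) (ht : t = 0) (j : J) :
    c j = 0 := by
  classical
  subst ht
  ext q q'
  have h := hc.col (Pi.single q' 1)
  have h1 : ∀ j q, ∑ q'', c j q q'' * (Pi.single q' (1 : ℂ) : Q → ℂ) q'' = c j q q' := by
    intro j q
    rw [Finset.sum_eq_single q']
    · simp
    · intro b _ hb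
      simp [hb]
    · simp
  simp only [h1] at h
  rw [zero_pow two_ne_zero, zero_mul] at h
  have h2 : ∑ j, ∑ q, ‖c j q q'‖ ^ 2 = 0 :=
    le_antisymm h (Finset.sum_nonneg fun _ _ => Finset.sum_nonneg fun _ _ => sq_nonneg _)
  have h3 := (Finset.sum_eq_zero_iff_of_nonneg
    (fun _ _ => Finset.sum_nonneg fun _ _ => sq_nonneg _)).1 h2 j (Finset.mem_univ _)
  have h4 := (Finset.sum_eq_zero_iff_of_nonneg (fun _ _ => sq_nonneg _)).1 h3 q
    (Finset.mem_univ _)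
  simpa using h4

theorem UBs.scale {t : ℝ} {c : J → Matrix Q Q ℂ} (hc : UBs t c) (ht : t ≠ 0) :
    UB (fun j => ((t : ℂ)⁻¹) • c j) where
  col v := by
    have h := hc.col v
    have h1 : ∀ j q, ‖∑ q', (((t : ℂ)⁻¹) • c j) q q' * v q'‖ ^ 2
        = (t ^ 2)⁻¹ * ‖∑ q', c j q q' * v q'‖ ^ 2 := by
      intro j q
      have : ∑ q', (((t : ℂ)⁻¹) • c j) q q' * v q' = (t : ℂ)⁻¹ * ∑ q', c j q q' * v q' := by
        rw [Finset.mul_sum]
        refine Finset.sum_congr rfl fun q' _ => ?_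
        rw [Matrix.smul_apply, smul_eq_mul, mul_assoc]
      rw [this, norm_mul, mul_pow, norm_inv, Complex.norm_real, inv_pow, Real.norm_eq_abs, sq_abs]
    simp only [h1, ← Finset.mul_sum]
    rw [inv_mul_le_iff₀ (by positivity)]
    exact h
  row v := by
    have h := hc.row v
    have h1 : ∀ j q', ‖∑ q, v q * (((t : ℂ)⁻¹) • c j) q q'‖ ^ 2
        = (t ^ 2)⁻¹ * ‖∑ q, v q * c j q q'‖ ^ 2 := by
      intro j q'
      have : ∑ q, v q * (((t : ℂ)⁻¹) • c j) q q' = (t : ℂ)⁻¹ * ∑ q, v q * c j q q' := by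
        rw [Finset.mul_sum]
        refine Finset.sum_congr rfl fun q' _ => ?_
        rw [Matrix.smul_apply, smul_eq_mul]
        ring
      rw [this, norm_mul, mul_pow, norm_inv, Complex.norm_real, inv_pow, Real.norm_eq_abs, sq_abs]
    simp only [h1, ← Finset.mul_sum]
    rw [inv_mul_le_iff₀ (by positivity)]
    exact h

omit [Fintype I] [Fintype J] [Fintype L] [Fintype P] [Fintype Q] in
theorem fr_smul [Fintype P] [Fintype Q] (c : ℂ) (A : Matrix P Q ℂ) :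
    fr (c • A) = ‖c‖ ^ 2 * fr A := by
  unfold fr
  simp only [Matrix.smul_apply, smul_eq_mul, norm_mul, mul_pow, Finset.mul_sum]

theorem fr_zero : fr (0 : Matrix P Q ℂ) = 0 := by simp [fr]

theorem Bd.norm_le' {x : I → J → Matrix L L ℂ} {Λ s t : ℝ} (hΛ : 0 ≤ Λ) (hx : Bd x Λ)
    {a : I → Matrix P P ℂ} {b : J → Matrix Q Q ℂ} (ha : UBs s a) (hb : UBs t b)
    (H : Matrix (L × P) Q ℂ) :
    fr (∑ j, (∑ i, x i j ⊗ₖ a i) * H * (b j)ᵀ) ≤ (Λ * s * t) ^ 2 * fr H := by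
  by_cases hs : s = 0
  · have h0 : ∀ i, a i = 0 := ha.zero hs
    have : ∑ j, (∑ i, x i j ⊗ₖ a i) * H * (b j)ᵀ = 0 := by
      refine Finset.sum_eq_zero fun j _ => ?_
      simp [h0]
    rw [this, fr_zero]
    exact mul_nonneg (sq_nonneg _) (fr_nonneg _)
  by_cases ht : t = 0
  · have h0 : ∀ i, b i = 0 := hb.zero ht
    have : ∑ j, (∑ i, x i j ⊗ₖ a i) * H * (b j)ᵀ = 0 := by
      refine Finset.sum_eq_zero fun j _ => ?_
      simp [h0]
    rw [this, fr_zero]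
    exact mul_nonneg (sq_nonneg _) (fr_nonneg _)
  have h1 := hx.norm_le hΛ (ha.scale hs) (hb.scale ht) H
  have h2 : ∑ j, (∑ i, x i j ⊗ₖ a i) * H * (b j)ᵀ
      = ((s * t : ℝ) : ℂ) • ∑ j, (∑ i, x i j ⊗ₖ (((s : ℂ)⁻¹) • a i)) * H * (((t : ℂ)⁻¹) • b j)ᵀ := by
    rw [Finset.smul_sum]
    refine Finset.sum_congr rfl fun j _ => ?_
    have hs' : (s : ℂ) ≠ 0 := by exact_mod_cast hs
    have ht' : (t : ℂ) ≠ 0 := by exact_mod_cast ht
    have h3 : ∑ i, x i j ⊗ₖ (((s : ℂ)⁻¹) • a i) = ((s : ℂ)⁻¹) • ∑ i, x i j ⊗ₖ a i := by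
      rw [Finset.smul_sum]
      refine Finset.sum_congr rfl fun i _ => ?_
      rw [kronecker_smul]
    rw [h3, transpose_smul, Matrix.smul_mul, Matrix.smul_mul, Matrix.mul_smul, smul_smul,
      smul_smul]
    have h4 : ((s * t : ℝ) : ℂ) * ((s : ℂ)⁻¹ * (t : ℂ)⁻¹) = 1 := by
      push_cast
      field_simp
    rw [mul_assoc, h4, one_smul]
  rw [h2, fr_smul, Complex.norm_real, Real.norm_eq_abs, sq_abs]
  calc (s * t) ^ 2 * _ ≤ (s * t) ^ 2 * (Λ ^ 2 * fr H) := by gcongr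
    _ = _ := by ring

end bd

section blk

variable {G : ℕ → Type} [∀ l, NormedAddCommGroup (G l)] [∀ l, InnerProductSpace ℂ (G l)]

omit [∀ l, InnerProductSpace ℂ (G l)] in
theorem lp_norm_sq (f : lp G 2) : ‖f‖ ^ 2 = ∑' l, ‖(f : ∀ l, G l) l‖ ^ 2 := by
  have h := lp.norm_rpow_eq_tsum (by norm_num : (0 : ℝ) < (2 : ℝ≥0∞).toReal) f
  simpa using h

omit [∀ l, InnerProductSpace ℂ (G l)] in
theorem lp_summable (f : lp G 2) : Summable fun l => ‖(f : ∀ l, G l) l‖ ^ 2 := by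
  have h := (lp.memℓp f).summable (by norm_num : (0 : ℝ) < (2 : ℝ≥0∞).toReal)
  simpa using h

theorem blk_mem (T : ∀ l, G l →L[ℂ] G l) (h : ∃ C, ∀ l, ‖T l‖ ≤ C) (f : lp G 2) :
    Memℓp (fun l => T l ((f : ∀ l, G l) l)) 2 := by
  obtain ⟨C, hC⟩ := h
  refine memℓp_gen ?_
  have h2 : Summable fun l => C ^ 2 * ‖(f : ∀ l, G l) l‖ ^ 2 := (lp_summable f).mul_left _
  refine Summable.of_nonneg_of_le (fun l => by positivity) (fun l => ?_) h2
  have h3 : ‖T l ((f : ∀ l, G l) l)‖ ≤ C * ‖(f : ∀ l, G l) l‖ :=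
    ((T l).le_opNorm _).trans (by gcongr; exact hC l)
  have h4 : ‖T l ((f : ∀ l, G l) l)‖ ^ 2 ≤ (C * ‖(f : ∀ l, G l) l‖) ^ 2 := by gcongr
  simpa [mul_pow] using h4

/-- The block diagonal operator. -/
noncomputable def blk (T : ∀ l, G l →L[ℂ] G l) (h : ∃ C, ∀ l, ‖T l‖ ≤ C) :
    lp G 2 →L[ℂ] lp G 2 :=
  LinearMap.mkContinuousOfExistsBound
    { toFun := fun f => ⟨fun l => T l ((f : ∀ l, G l) l), blk_mem T h f⟩
      map_add' := fun f g => by ext l : 2; simp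
      map_smul' := fun c f => by ext l : 2; simp } (by
    obtain ⟨C, hC⟩ := h
    refine ⟨|C|, fun f => ?_⟩
    refine le_of_sq_le_sq ?_ (by positivity)
    rw [lp_norm_sq, mul_pow, lp_norm_sq, ← tsum_mul_left]
    refine Summable.tsum_le_tsum (fun l => ?_) ?_ ((lp_summable f).mul_left _)
    · have h3 : ‖T l ((f : ∀ l, G l) l)‖ ≤ |C| * ‖(f : ∀ l, G l) l‖ :=
        ((T l).le_opNorm _).trans (by gcongr; exact (hC l).trans (le_abs_self C))
      rw [← mul_pow]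
      change ‖T l ((f : ∀ l, G l) l)‖ ^ 2 ≤ _
      gcongr
    · exact lp_summable (⟨fun l => T l ((f : ∀ l, G l) l), blk_mem T ⟨C, hC⟩ f⟩ : lp G 2))

theorem blk_apply (T : ∀ l, G l →L[ℂ] G l) (h : ∃ C, ∀ l, ‖T l‖ ≤ C) (f : lp G 2) (l : ℕ) :
    (blk T h f : ∀ l, G l) l = T l ((f : ∀ l, G l) l) := rfl

end blk

/-- The index set of the generators. -/
abbrev IX : Type := Σ l : ℕ, (Fin (4 * l) → Bool)

/-- The blocks of the Hilbert space. -/
abbrev GG (l : ℕ) : Type := EuclideanSpace ℂ (Fin (4 * l) → Bool)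

/-- The Hilbert space. -/
abbrev HH : Type := lp GG 2

/-- The matrix of a block. -/
noncomputable def Mat (l : ℕ) (a b : Al IX) :
    Matrix (Fin (4 * l) → Bool) (Fin (4 * l) → Bool) ℂ :=
  ∑ J, ∑ I, (cf (⟨l, I⟩ : IX) a * cf (⟨l, J⟩ : IX) b) • XX (4 * l) I J

/-- The block. -/
noncomputable def TT (l : ℕ) (a b : Al IX) : GG l →L[ℂ] GG l :=
  Matrix.toEuclideanCLM (𝕜 := ℂ) (Mat l a b)

theorem TT_apply (l : ℕ) (a b : Al IX) (y : GG l) (A : Fin (4 * l) → Bool) :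
    TT l a b y A = ∑ B, Mat l a b A B * y B := by
  unfold TT
  simp [Matrix.mulVec, dotProduct]

theorem Mat_apply (l : ℕ) (a b : Al IX) (A B : Fin (4 * l) → Bool) :
    Mat l a b A B = ∑ J, ∑ I, cf (⟨l, I⟩ : IX) a * cf (⟨l, J⟩ : IX) b * XX (4 * l) I J A B := by
  unfold Mat
  simp only [Matrix.sum_apply, Matrix.smul_apply, smul_eq_mul]

theorem sum_perm5 {α β γ δ ε : Type*} [Fintype α] [Fintype β] [Fintype γ] [Fintype δ] [Fintype ε]
    (F : α → β → γ → δ → ε → ℂ) :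
    ∑ s, ∑ t, ∑ B, ∑ J, ∑ I, F s t B J I = ∑ J, ∑ t, ∑ B, ∑ s, ∑ I, F s t B J I := by
  calc ∑ s, ∑ t, ∑ B, ∑ J, ∑ I, F s t B J I
      = ∑ s, ∑ t, ∑ J, ∑ B, ∑ I, F s t B J I :=
        Finset.sum_congr rfl fun s _ => Finset.sum_congr rfl fun t _ => Finset.sum_comm
    _ = ∑ s, ∑ J, ∑ t, ∑ B, ∑ I, F s t B J I := Finset.sum_congr rfl fun s _ => Finset.sum_comm
    _ = ∑ J, ∑ s, ∑ t, ∑ B, ∑ I, F s t B J I := Finset.sum_comm
    _ = ∑ J, ∑ t, ∑ s, ∑ B, ∑ I, F s t B J I := Finset.sum_congr rfl fun J _ => Finset.sum_comm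
    _ = _ := Finset.sum_congr rfl fun J _ => Finset.sum_congr rfl fun t _ => Finset.sum_comm

/-- The finite dimensional estimate. -/
theorem block_bound (l n m : ℕ) (a : CStarMatrix (Fin n) (Fin n) (Al IX))
    (b : CStarMatrix (Fin m) (Fin m) (Al IX)) (y : Fin n × Fin m → GG l) :
    ∑ p : Fin n × Fin m, ‖∑ q : Fin n × Fin m, TT l (a p.1 q.1) (b p.2 q.2) (y q)‖ ^ 2
      ≤ ((19 / 5 : ℝ) ^ l * ‖a‖ * ‖b‖) ^ 2 * ∑ q, ‖y q‖ ^ 2 := by
  have hinj : Function.Injective (fun I : Fin (4 * l) → Bool => (⟨l, I⟩ : IX)) :=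
    fun I I' h => eq_of_heq (Sigma.mk.inj h).2
  set H : Matrix ((Fin (4 * l) → Bool) × Fin n) (Fin m) ℂ := fun u t => y (u.2, t) u.1 with hH
  have h1 := (Bd_XX l).norm_le' (by positivity) (UBs_cf _ hinj a) (UBs_cf _ hinj b) H
  have h2 : fr H = ∑ q, ‖y q‖ ^ 2 := by
    simp only [fr, Fintype.sum_prod_type, EuclideanSpace.norm_sq_eq, hH]
    rw [Finset.sum_comm]
    exact Finset.sum_congr rfl fun _ _ => Finset.sum_comm
  rw [h2] at h1
  refine le_of_eq_of_le ?_ h1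
  have h3 : ∀ (A : Fin (4 * l) → Bool) (r : Fin n) (u : Fin m),
      (∑ q : Fin n × Fin m, TT l (a r q.1) (b u q.2) (y q)) A
      = (∑ J, (∑ I, XX (4 * l) I J ⊗ₖ (Matrix.of fun r s => cf (⟨l, I⟩ : IX) (a r s))) * H *
        (Matrix.of fun r s => cf (⟨l, J⟩ : IX) (b r s))ᵀ) (A, r) u := by
    intro A r u
    have e1 : (∑ q : Fin n × Fin m, TT l (a r q.1) (b u q.2) (y q)) A
        = ∑ q : Fin n × Fin m, (TT l (a r q.1) (b u q.2) (y q)) A := by
      simp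
    rw [e1]
    simp only [TT_apply, Mat_apply, Matrix.sum_apply, Matrix.mul_apply, kroneckerMap_apply,
      Fintype.sum_prod_type, Matrix.transpose_apply, Matrix.of_apply, Finset.sum_mul, hH]
    rw [sum_perm5]
    refine Finset.sum_congr rfl fun J _ => Finset.sum_congr rfl fun t _ =>
      Finset.sum_congr rfl fun B _ => Finset.sum_congr rfl fun s _ =>
      Finset.sum_congr rfl fun I _ => ?_
    ring
  simp only [fr, Fintype.sum_prod_type, EuclideanSpace.norm_sq_eq, ← h3]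
  conv_rhs => rw [Finset.sum_comm]
  exact Finset.sum_congr rfl fun r _ => Finset.sum_comm

end T2H75.JCB
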