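import Mathlib
import Pool.Agent.T2H75.JCB.Phi

/-!
# The jointly completely bounded bilinear map: definition and bound
-/

set_option autoImplicit false

open scoped ENNReal InnerProductSpace CStarMatrix

namespace T2H75.JCB

theorem Mat_add_left (l : ℕ) (a a' b : Al IX) : Mat l (a + a') b = Mat l a b + Mat l a' b := by
  unfold Mat
  simp only [map_add, add_mul, add_smul, Finset.sum_add_distrib]

theorem Mat_add_right (l : ℕ) (a b b' : Al IX) : Mat l a (b + b') = Mat l a b + Mat l a b' := by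
  unfold Mat
  simp only [map_add, mul_add, add_smul, Finset.sum_add_distrib]

theorem Mat_smul_left (l : ℕ) (c : ℂ) (a b : Al IX) : Mat l (c • a) b = c • Mat l a b := by
  unfold Mat
  simp only [map_smul, smul_eq_mul, Finset.smul_sum, smul_smul, mul_assoc]

theorem Mat_smul_right (l : ℕ) (c : ℂ) (a b : Al IX) : Mat l a (c • b) = c • Mat l a b := by
  unfold Mat
  simp only [map_smul, smul_eq_mul, Finset.smul_sum, smul_smul]
  refine Finset.sum_congr rfl fun J _ => Finset.sum_congr rfl fun I _ => ?_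
  congr 1
  ring

theorem norm_one_by_one (a : Al IX) :
    ‖(CStarMatrix.ofMatrix (fun _ _ => a) : CStarMatrix (Fin 1) (Fin 1) (Al IX))‖ ≤ ‖a‖ := by
  refine norm_le_of_amp (Fin 1) _ (norm_nonneg _) fun v => ?_
  simp only [Fin.sum_univ_one, CStarMatrix.ofMatrix_apply]
  rw [← mul_pow]
  have h : ‖inc a‖ ≤ ‖a‖ := NonUnitalStarAlgHom.norm_apply_le inc a
  have h2 := (inc a).le_opNorm (v 0)
  have h3 : ‖inc a (v 0)‖ ≤ ‖a‖ * ‖v 0‖ := h2.trans (by gcongr)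
  gcongr

theorem norm_TT_le (l : ℕ) (a b : Al IX) : ‖TT l a b‖ ≤ (19 / 5 : ℝ) ^ l * ‖a‖ * ‖b‖ := by
  refine ContinuousLinearMap.opNorm_le_bound _ (by positivity) fun y => ?_
  have h := block_bound l 1 1 (CStarMatrix.ofMatrix (fun _ _ => a))
    (CStarMatrix.ofMatrix (fun _ _ => b)) (fun _ => y)
  simp only [Fintype.sum_prod_type, Fin.sum_univ_one, CStarMatrix.ofMatrix_apply] at h
  refine le_of_sq_le_sq (h.trans ?_) (by positivity)
  rw [mul_pow ((19 / 5 : ℝ) ^ l * ‖a‖ * ‖b‖) ‖y‖ 2]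
  have h1 := norm_one_by_one a
  have h2 := norm_one_by_one b
  have h3 := mul_le_mul (mul_le_mul_of_nonneg_left h1 (by positivity : (0:ℝ) ≤ (19 / 5 : ℝ) ^ l)) h2
    (norm_nonneg _) (by positivity)
  refine mul_le_mul_of_nonneg_right (pow_le_pow_left₀ (by positivity) h3 2) (by positivity)

/-- The normalised block. -/
noncomputable def TN (l : ℕ) (a b : Al IX) : GG l →L[ℂ] GG l := ((5 / 19 : ℂ) ^ l) • TT l a b

theorem norm_TN_le (l : ℕ) (a b : Al IX) : ‖TN l a b‖ ≤ ‖a‖ * ‖b‖ := by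
  unfold TN
  rw [norm_smul, norm_pow]
  have h := norm_TT_le l a b
  have h1 : ‖(5 / 19 : ℂ)‖ = 5 / 19 := by
    rw [norm_div]
    norm_num
  rw [h1]
  calc (5 / 19 : ℝ) ^ l * ‖TT l a b‖ ≤ (5 / 19 : ℝ) ^ l * ((19 / 5 : ℝ) ^ l * ‖a‖ * ‖b‖) := by
        gcongr
    _ = ((5 / 19 : ℝ) ^ l * (19 / 5 : ℝ) ^ l) * (‖a‖ * ‖b‖) := by ring
    _ = ‖a‖ * ‖b‖ := by
        rw [← mul_pow]
        norm_num

theorem TN_add_left (l : ℕ) (a a' b : Al IX) : TN l (a + a') b = TN l a b + TN l a' b := by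
  unfold TN TT
  rw [Mat_add_left, map_add, smul_add]

theorem TN_add_right (l : ℕ) (a b b' : Al IX) : TN l a (b + b') = TN l a b + TN l a b' := by
  unfold TN TT
  rw [Mat_add_right, map_add, smul_add]

theorem TN_smul_left (l : ℕ) (c : ℂ) (a b : Al IX) : TN l (c • a) b = c • TN l a b := by
  unfold TN TT
  rw [Mat_smul_left, map_smul, smul_comm]

theorem TN_smul_right (l : ℕ) (c : ℂ) (a b : Al IX) : TN l a (c • b) = c • TN l a b := by
  unfold TN TT
  rw [Mat_smul_right, map_smul, smul_comm]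

/-- The bilinear map. -/
noncomputable def phi : Al IX →ₗ[ℂ] Al IX →ₗ[ℂ] (HH →L[ℂ] HH) :=
  LinearMap.mk₂ ℂ (fun a b => blk (fun l => TN l a b) ⟨‖a‖ * ‖b‖, fun l => norm_TN_le l a b⟩)
    (fun a a' b => by
      ext f l : 3
      change TN l (a + a') b _ = TN l a b _ + TN l a' b _
      rw [TN_add_left]
      rfl)
    (fun c a b => by
      ext f l : 3
      change TN l (c • a) b _ = c • TN l a b _
      rw [TN_smul_left]
      rfl)
    (fun a b b' => by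
      ext f l : 3
      change TN l a (b + b') _ = TN l a b _ + TN l a b' _
      rw [TN_add_right]
      rfl)
    (fun c a b => by
      ext f l : 3
      change TN l a (c • b) _ = c • TN l a b _
      rw [TN_smul_right]
      rfl)

theorem phi_apply (a b : Al IX) (f : HH) (l : ℕ) :
    (phi a b f : ∀ l, GG l) l = TN l a b ((f : ∀ l, GG l) l) := rfl

theorem block_bound_TN (l n m : ℕ) (a : CStarMatrix (Fin n) (Fin n) (Al IX))
    (b : CStarMatrix (Fin m) (Fin m) (Al IX)) (y : Fin n × Fin m → GG l) :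
    ∑ p : Fin n × Fin m, ‖∑ q : Fin n × Fin m, TN l (a p.1 q.1) (b p.2 q.2) (y q)‖ ^ 2
      ≤ (‖a‖ * ‖b‖) ^ 2 * ∑ q, ‖y q‖ ^ 2 := by
  have h := block_bound l n m a b y
  have h1 : ‖(5 / 19 : ℂ)‖ = 5 / 19 := by
    rw [norm_div]
    norm_num
  have e : ∀ p : Fin n × Fin m, ‖∑ q : Fin n × Fin m, TN l (a p.1 q.1) (b p.2 q.2) (y q)‖ ^ 2
      = ((5 / 19 : ℝ) ^ l) ^ 2 * ‖∑ q : Fin n × Fin m, TT l (a p.1 q.1) (b p.2 q.2) (y q)‖ ^ 2 := by
    intro p
    have : ∑ q : Fin n × Fin m, TN l (a p.1 q.1) (b p.2 q.2) (y q)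
        = ((5 / 19 : ℂ) ^ l) • ∑ q : Fin n × Fin m, TT l (a p.1 q.1) (b p.2 q.2) (y q) := by
      rw [Finset.smul_sum]
      rfl
    rw [this, norm_smul, norm_pow, h1, mul_pow]
  simp only [e, ← Finset.mul_sum]
  calc _ ≤ ((5 / 19 : ℝ) ^ l) ^ 2 *
        (((19 / 5 : ℝ) ^ l * ‖a‖ * ‖b‖) ^ 2 * ∑ q, ‖y q‖ ^ 2) := by gcongr
    _ = ((5 / 19 : ℝ) ^ l * (19 / 5 : ℝ) ^ l) ^ 2 * ((‖a‖ * ‖b‖) ^ 2 * ∑ q, ‖y q‖ ^ 2) := by ring
    _ = _ := by
        rw [← mul_pow]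
        norm_num

/-- `phi` is jointly completely bounded. -/
theorem phi_jcb (n m : ℕ) (a : CStarMatrix (Fin n) (Fin n) (Al IX))
    (b : CStarMatrix (Fin m) (Fin m) (Al IX)) (x : Fin n × Fin m → HH) :
    ∑ p : Fin n × Fin m, ‖∑ q : Fin n × Fin m, phi (a p.1 q.1) (b p.2 q.2) (x q)‖ ^ 2
      ≤ (1 * ‖a‖ * ‖b‖) ^ 2 * ∑ q : Fin n × Fin m, ‖x q‖ ^ 2 := by
  rw [one_mul]
  have e1 : ∀ p : Fin n × Fin m,
      ‖∑ q : Fin n × Fin m, phi (a p.1 q.1) (b p.2 q.2) (x q)‖ ^ 2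
      = ∑' l, ‖∑ q : Fin n × Fin m, TN l (a p.1 q.1) (b p.2 q.2) ((x q : ∀ l, GG l) l)‖ ^ 2 := by
    intro p
    rw [lp_norm_sq]
    refine tsum_congr fun l => ?_
    rw [lp.coeFn_sum, Finset.sum_apply]
    rfl
  have e2 : ∀ p : Fin n × Fin m, Summable fun l =>
      ‖∑ q : Fin n × Fin m, TN l (a p.1 q.1) (b p.2 q.2) ((x q : ∀ l, GG l) l)‖ ^ 2 := by
    intro p
    have h := lp_summable (∑ q : Fin n × Fin m, phi (a p.1 q.1) (b p.2 q.2) (x q))
    refine h.congr fun l => ?_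
    rw [lp.coeFn_sum, Finset.sum_apply]
    rfl
  simp only [e1]
  rw [← Summable.tsum_finsetSum fun p _ => e2 p]
  have e3 : ∑ q, ‖x q‖ ^ 2 = ∑' l, ∑ q, ‖(x q : ∀ l, GG l) l‖ ^ 2 := by
    rw [Summable.tsum_finsetSum fun q _ => lp_summable (x q)]
    exact Finset.sum_congr rfl fun q _ => lp_norm_sq _
  rw [e3, ← tsum_mul_left]
  refine Summable.tsum_le_tsum (fun l => block_bound_TN l n m a b _)
    (summable_sum fun p _ => e2 p) ?_
  exact (summable_sum fun q _ => lp_summable (x q)).mul_left _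

end T2H75.JCB
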