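import Mathlib
import Pool.Agent.T2H75.JCB.Phi2

/-!
# Test matrices and the pairing bound
-/

set_option autoImplicit false

open scoped ENNReal InnerProductSpace CStarMatrix

namespace T2H75.JCB

section bessel

variable {ι : Type} [DecidableEq ι]

theorem inner_cL_cL (a b : ι × Bool) (v w : FK ι) :
    ⟪cL a v, cL b w⟫_ℂ = if a = b then ⟪v, w⟫_ℂ else 0 := by
  have h1 : ⟪cL a v, cL b w⟫_ℂ = ⟪v, (pL a * cL b) w⟫_ℂ := by
    rw [mul_apply_eq_comp]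
    conv_lhs => rw [cL, ContinuousLinearMap.star_eq_adjoint,
      ContinuousLinearMap.adjoint_inner_left]
  rw [h1, pL_mul_cL]
  split_ifs
  · rfl
  · simp

theorem norm_sum_cL {κ : Type*} (s : Finset κ) (e : κ → ι × Bool) (he : Set.InjOn e s)
    (v : κ → FK ι) :
    ‖∑ k ∈ s, cL (e k) (v k)‖ ^ 2 = ∑ k ∈ s, ‖v k‖ ^ 2 := by
  have h1 : ((‖∑ k ∈ s, cL (e k) (v k)‖ ^ 2 : ℝ) : ℂ) = ((∑ k ∈ s, ‖v k‖ ^ 2 : ℝ) : ℂ) := by
    have h2 := inner_self_eq_norm_sq_to_K (𝕜 := ℂ) (∑ k ∈ s, cL (e k) (v k))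
    rw [sum_inner] at h2
    push_cast
    refine h2.symm.trans ?_
    refine Finset.sum_congr rfl fun k hk => ?_
    rw [inner_sum, Finset.sum_eq_single k]
    · rw [inner_cL_cL, if_pos rfl]
      exact inner_self_eq_norm_sq_to_K (𝕜 := ℂ) (v k)
    · intro j hj hjk
      rw [inner_cL_cL, if_neg]
      intro h
      exact hjk (he hk hj h).symm
    · intro h
      exact absurd hk h
  exact_mod_cast h1

theorem bessel {κ : Type*} (s : Finset κ) (e : κ → ι × Bool) (he : Set.InjOn e s) (f : FK ι) :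
    ∑ k ∈ s, ‖pL (e k) f‖ ^ 2 ≤ ‖f‖ ^ 2 := by
  set u : FK ι := ∑ k ∈ s, cL (e k) (pL (e k) f) with hu
  have h1 : ‖u‖ ^ 2 = ∑ k ∈ s, ‖pL (e k) f‖ ^ 2 := norm_sum_cL s e he _
  have h2 : ⟪u, f⟫_ℂ = ((∑ k ∈ s, ‖pL (e k) f‖ ^ 2 : ℝ) : ℂ) := by
    rw [hu, sum_inner]
    push_cast
    refine Finset.sum_congr rfl fun k _ => ?_
    rw [cL, ContinuousLinearMap.star_eq_adjoint, ContinuousLinearMap.adjoint_inner_left]
    exact inner_self_eq_norm_sq_to_K (𝕜 := ℂ) _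
  have h3 : ‖⟪u, f⟫_ℂ‖ ≤ ‖u‖ * ‖f‖ := norm_inner_le_norm _ _
  rw [h2, Complex.norm_real, Real.norm_of_nonneg (Finset.sum_nonneg fun _ _ => sq_nonneg _),
    ← h1] at h3
  rw [← h1]
  have h4 : ‖u‖ ≤ ‖f‖ := by
    by_contra hcon
    push Not at hcon
    have : 0 < ‖u‖ := lt_of_le_of_lt (norm_nonneg _) hcon
    nlinarith
  gcongr

theorem norm_add_sq_le {E : Type*} [SeminormedAddCommGroup E] (x y : E) :
    ‖x + y‖ ^ 2 ≤ 2 * ‖x‖ ^ 2 + 2 * ‖y‖ ^ 2 := by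
  have h := norm_add_le x y
  have h2 : ‖x + y‖ ^ 2 ≤ (‖x‖ + ‖y‖) ^ 2 := by gcongr
  nlinarith [sq_nonneg (‖x‖ - ‖y‖)]

theorem norm_sum_sq_le {E κ : Type*} [SeminormedAddCommGroup E] (s : Finset κ) (g : κ → E) :
    ‖∑ k ∈ s, g k‖ ^ 2 ≤ s.card * ∑ k ∈ s, ‖g k‖ ^ 2 := by
  have h1 : ‖∑ k ∈ s, g k‖ ≤ ∑ k ∈ s, ‖g k‖ := norm_sum_le _ _
  calc ‖∑ k ∈ s, g k‖ ^ 2 ≤ (∑ k ∈ s, ‖g k‖) ^ 2 := by gcongr
    _ ≤ _ := sq_sum_le_card_mul_sum_sq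

theorem test_bound {S : Type} [Fintype S] (R : S → S → Prop) [∀ p q, Decidable (R p q)]
    (f : S → S → ι) (N : ℕ) (c : ℝ) (hcN : c ^ 2 * N ≤ 1)
    (hrow : ∀ p q q', R p q → R p q' → f p q = f p q' → q = q')
    (hcol : ∀ p p' q, R p q → R p' q → f p q = f p' q → p = p')
    (hr : ∀ p, (Finset.univ.filter fun q => R p q).card ≤ N)
    (hc : ∀ q, (Finset.univ.filter fun p => R p q).card ≤ N) (v : S → FK ι) :
    ∑ p, ‖∑ q, inc (if R p q then (c : ℂ) • ga (f p q) else 0) (v q)‖ ^ 2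
      ≤ 2 ^ 2 * ∑ q, ‖v q‖ ^ 2 := by
  set F : S → Finset S := fun p => Finset.univ.filter fun q => R p q with hF
  set G : S → Finset S := fun q => Finset.univ.filter fun p => R p q with hG
  have e1 : ∀ p, ∑ q, inc (if R p q then (c : ℂ) • ga (f p q) else 0) (v q)
      = (c : ℂ) • (∑ q ∈ F p, cL (f p q, true) (v q) + ∑ q ∈ F p, pL (f p q, false) (v q)) := by
    intro p
    rw [← Finset.sum_add_distrib, Finset.smul_sum, hF, Finset.sum_filter]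
    refine Finset.sum_congr rfl fun q _ => ?_
    split_ifs
    · rw [map_smul, inc_ga]
      rfl
    · simp
  have e2 : ∀ p, ‖∑ q, inc (if R p q then (c : ℂ) • ga (f p q) else 0) (v q)‖ ^ 2
      ≤ c ^ 2 * (2 * (∑ q ∈ F p, ‖v q‖ ^ 2)
        + 2 * (N * ∑ q ∈ F p, ‖pL (f p q, false) (v q)‖ ^ 2)) := by
    intro p
    rw [e1, norm_smul, mul_pow, Complex.norm_real, Real.norm_eq_abs, sq_abs]
    have h1 := norm_add_sq_le (∑ q ∈ F p, cL (f p q, true) (v q))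
      (∑ q ∈ F p, pL (f p q, false) (v q))
    have h2 := norm_sum_cL (F p) (fun q => (f p q, true)) (fun q hq q' hq' h => by
      simp only [hF, Finset.coe_filter, Finset.mem_univ, true_and, Set.mem_ofPred_eq] at hq hq'
      exact hrow p q q' hq hq' (by simpa using h)) v
    have h3 := norm_sum_sq_le (F p) (fun q => pL (f p q, false) (v q))
    have h4 : ((F p).card : ℝ) * ∑ q ∈ F p, ‖pL (f p q, false) (v q)‖ ^ 2
        ≤ N * ∑ q ∈ F p, ‖pL (f p q, false) (v q)‖ ^ 2 :=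
      mul_le_mul_of_nonneg_right (by exact_mod_cast hr p)
        (Finset.sum_nonneg fun _ _ => sq_nonneg _)
    have h5 : 2 * ‖∑ q ∈ F p, cL (f p q, true) (v q)‖ ^ 2
        + 2 * ‖∑ q ∈ F p, pL (f p q, false) (v q)‖ ^ 2
        ≤ 2 * (∑ q ∈ F p, ‖v q‖ ^ 2)
        + 2 * (N * ∑ q ∈ F p, ‖pL (f p q, false) (v q)‖ ^ 2) := by
      rw [h2]
      linarith [h3.trans h4]
    exact mul_le_mul_of_nonneg_left (h1.trans h5) (sq_nonneg c)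
  have e3 : ∀ g : S → S → ℝ, ∑ p, ∑ q ∈ F p, g p q = ∑ q, ∑ p ∈ G q, g p q := by
    intro g
    simp only [hF, hG, Finset.sum_filter]
    exact Finset.sum_comm
  have e4 : ∑ p, ∑ q ∈ F p, ‖v q‖ ^ 2 ≤ N * ∑ q, ‖v q‖ ^ 2 := by
    rw [e3, Finset.mul_sum]
    refine Finset.sum_le_sum fun q _ => ?_
    rw [Finset.sum_const, nsmul_eq_mul]
    exact mul_le_mul_of_nonneg_right (by exact_mod_cast hc q) (sq_nonneg _)
  have e5 : ∑ p, ∑ q ∈ F p, ‖pL (f p q, false) (v q)‖ ^ 2 ≤ ∑ q, ‖v q‖ ^ 2 := by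
    rw [e3]
    refine Finset.sum_le_sum fun q _ => ?_
    refine bessel (G q) (fun p => (f p q, false)) (fun p hp p' hp' h => ?_) (v q)
    simp only [hG, Finset.coe_filter, Finset.mem_univ, true_and, Set.mem_ofPred_eq] at hp hp'
    exact hcol p p' q hp hp' (by simpa using h)
  refine (Finset.sum_le_sum fun p _ => e2 p).trans ?_
  rw [← Finset.mul_sum, Finset.sum_add_distrib, ← Finset.mul_sum, ← Finset.mul_sum,
    ← Finset.mul_sum]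
  set X := ∑ q, ‖v q‖ ^ 2 with hX
  have hX0 : 0 ≤ X := Finset.sum_nonneg fun _ _ => sq_nonneg _
  have hN : (0 : ℝ) ≤ N := Nat.cast_nonneg N
  clear_value X
  generalize (∑ p, ∑ q ∈ F p, ‖v q‖ ^ 2) = Y1 at e4 ⊢
  generalize (∑ p, ∑ q ∈ F p, ‖pL (f p q, false) (v q)‖ ^ 2) = Y2 at e5 ⊢
  calc c ^ 2 * (2 * Y1 + 2 * (N * Y2))
      ≤ c ^ 2 * (2 * (N * X) + 2 * (N * X)) := by gcongr
    _ = 4 * ((c ^ 2 * N) * X) := by ring
    _ ≤ 4 * (1 * X) := by gcongr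
    _ = 2 ^ 2 * X := by ring

end bessel

theorem pairing {φ₁ : Al IX →ₗ[ℂ] Al IX →ₗ[ℂ] (HH →L[ℂ] HH)} {C : ℝ}
    (h : ∀ (n : ℕ) (a b : CStarMatrix (Fin n) (Fin n) (Al IX)) (x : Fin n → HH),
      ∑ i : Fin n, ‖∑ j : Fin n, ∑ k : Fin n, φ₁ (a i k) (b k j) (x j)‖ ^ 2
        ≤ (C * ‖a‖ * ‖b‖) ^ 2 * ∑ j : Fin n, ‖x j‖ ^ 2)
    {S : Type} [Fintype S] (a b : S → S → Al IX)
    (ha : ∀ v : S → FK IX, ∑ p, ‖∑ q, inc (a p q) (v q)‖ ^ 2 ≤ 2 ^ 2 * ∑ q, ‖v q‖ ^ 2)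
    (hb : ∀ v : S → FK IX, ∑ p, ‖∑ q, inc (b p q) (v q)‖ ^ 2 ≤ 2 ^ 2 * ∑ q, ‖v q‖ ^ 2)
    (x y : S → HH) {D : ℝ} (hD : 0 ≤ D) (hx : ∑ q, ‖x q‖ ^ 2 ≤ D) (hy : ∑ q, ‖y q‖ ^ 2 ≤ D) :
    ‖∑ p, ∑ q, ∑ r, ⟪y p, φ₁ (a p r) (b r q) (x q)⟫_ℂ‖ ≤ |C| * 4 * D := by
  set e : Fin (Fintype.card S) ≃ S := (Fintype.equivFin S).symm with he
  set n := Fintype.card S with hn
  have key : ∀ a : S → S → Al IX,
      (∀ v : S → FK IX, ∑ p, ‖∑ q, inc (a p q) (v q)‖ ^ 2 ≤ 2 ^ 2 * ∑ q, ‖v q‖ ^ 2) →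
      ‖(CStarMatrix.ofMatrix (fun i j => a (e i) (e j)) :
        CStarMatrix (Fin n) (Fin n) (Al IX))‖ ≤ 2 := by
    intro a ha
    refine norm_le_of_amp (Fin n) _ (by norm_num) fun v => ?_
    have h1 := ha (fun s => v (e.symm s))
    rw [← Equiv.sum_comp e, ← Equiv.sum_comp e (fun q => ‖v (e.symm q)‖ ^ 2)] at h1
    simp only [Equiv.symm_apply_apply] at h1
    refine le_of_eq_of_le (Finset.sum_congr rfl fun i _ => ?_) h1
    rw [← Equiv.sum_comp e]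
    simp
  have h1 := h n (CStarMatrix.ofMatrix (fun i j => a (e i) (e j)))
    (CStarMatrix.ofMatrix (fun i j => b (e i) (e j))) (fun i => x (e i))
  have h2 := key a ha
  have h3 := key b hb
  set z : S → HH := fun p => ∑ q, ∑ r, φ₁ (a p r) (b r q) (x q) with hz
  have h4 : ∑ p, ‖z p‖ ^ 2 ≤ (|C| * 4) ^ 2 * D := by
    have h5 : ∑ i : Fin n, ‖∑ j : Fin n, ∑ k : Fin n,
        φ₁ ((CStarMatrix.ofMatrix (fun i j => a (e i) (e j)) :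
          CStarMatrix (Fin n) (Fin n) (Al IX)) i k)
        ((CStarMatrix.ofMatrix (fun i j => b (e i) (e j)) :
          CStarMatrix (Fin n) (Fin n) (Al IX)) k j) (x (e j))‖ ^ 2 = ∑ p, ‖z p‖ ^ 2 := by
      rw [← Equiv.sum_comp e]
      refine Finset.sum_congr rfl fun i _ => ?_
      congr 2
      rw [hz]
      simp only
      rw [← Equiv.sum_comp e]
      refine Finset.sum_congr rfl fun j _ => ?_
      rw [← Equiv.sum_comp e]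
      rfl
    rw [h5] at h1
    have h6 : ∑ j : Fin n, ‖x (e j)‖ ^ 2 ≤ D := by
      rw [Equiv.sum_comp e (fun q => ‖x q‖ ^ 2)]
      exact hx
    refine h1.trans ?_
    rw [mul_assoc, mul_pow, ← sq_abs C, ← mul_pow]
    gcongr
    calc _ ≤ (2 : ℝ) * 2 := by gcongr
      _ = 4 := by norm_num
  have h7 : ∑ p, ∑ q, ∑ r, ⟪y p, φ₁ (a p r) (b r q) (x q)⟫_ℂ = ∑ p, ⟪y p, z p⟫_ℂ := by
    refine Finset.sum_congr rfl fun p _ => ?_
    rw [hz]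
    simp only [inner_sum]
  rw [h7]
  have h8 : ‖∑ p, ⟪y p, z p⟫_ℂ‖ ≤ ∑ p, ‖y p‖ * ‖z p‖ :=
    (norm_sum_le _ _).trans (Finset.sum_le_sum fun p _ => norm_inner_le_norm _ _)
  refine h8.trans ?_
  refine le_of_sq_le_sq ?_ (by positivity)
  calc (∑ p, ‖y p‖ * ‖z p‖) ^ 2 ≤ (∑ p, ‖y p‖ ^ 2) * ∑ p, ‖z p‖ ^ 2 :=
        Finset.sum_mul_sq_le_sq_mul_sq _ _ _
    _ ≤ D * ((|C| * 4) ^ 2 * D) := by gcongr
    _ = (|C| * 4 * D) ^ 2 := by ring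

end T2H75.JCB
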