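import Mathlib
import Pool.Agent.T2H75.JCB.Test

/-!
# The lower bound
-/

set_option autoImplicit false

open scoped ENNReal InnerProductSpace CStarMatrix
open Finset

namespace T2H75.JCB

/-- Subsets of the index set. -/
abbrev FS (l : ℕ) : Type := Finset (Fin (4 * l))

variable {l : ℕ}

/-- The characteristic function. -/
def ch (A : FS l) : Fin (4 * l) → Bool := fun i => decide (i ∈ A)

theorem ch_inj : Function.Injective (ch : FS l → Fin (4 * l) → Bool) := by
  intro A B h
  ext i
  have := congrFun h i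
  simpa [ch] using this

/-- The letter of a subset. -/
def lt (A : FS l) : IX := ⟨l, ch A⟩

theorem lt_inj : Function.Injective (lt : FS l → IX) := by
  intro A B h
  exact ch_inj (eq_of_heq (Sigma.mk.inj h).2)

/-- The support of the first test matrix. -/
abbrev PR (A V : FS l) : Prop := Disjoint A V ∧ A.card = l ∧ V.card = 2 * l

/-- The support of the second test matrix. -/
abbrev QR (V B : FS l) : Prop := B ⊆ V ∧ B.card = l ∧ V.card = 2 * l

theorem card_compl_of {A : FS l} {j : ℕ} (h : A.card = j) : Aᶜ.card = 4 * l - j := by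
  rw [card_compl, h, Fintype.card_fin]

theorem choose_aux : (3 * l).choose (2 * l) = (3 * l).choose l := by
  rw [← Nat.choose_symm (by omega : 2 * l ≤ 3 * l)]
  congr 1
  omega

theorem filter_PR {A : FS l} (h : A.card = l) :
    (univ.filter fun V => PR A V) = powersetCard (2 * l) Aᶜ := by
  ext V
  simp only [mem_filter, mem_univ, true_and, mem_powersetCard, PR, h]
  rw [subset_compl_iff_disjoint_left]

theorem card_PR {A : FS l} (h : A.card = l) :
    (univ.filter fun V => PR A V).card = (3 * l).choose l := by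
  rw [filter_PR h, card_powersetCard, card_compl_of h, ← choose_aux]
  congr 1
  omega

theorem PR_row (A : FS l) : (univ.filter fun V => PR A V).card ≤ (3 * l).choose l := by
  by_cases h : A.card = l
  · exact (card_PR h).le
  · rw [filter_eq_empty_iff.2 fun V _ hV => h hV.2.1, card_empty]
    exact Nat.zero_le _

theorem PR_col (V : FS l) : (univ.filter fun A => PR A V).card ≤ (3 * l).choose l := by
  by_cases h : V.card = 2 * l
  · have h1 : (univ.filter fun A => PR A V) ⊆ powersetCard l Vᶜ := by
      intro A hA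
      rw [mem_filter] at hA
      rw [mem_powersetCard]
      exact ⟨subset_compl_iff_disjoint_right.2 hA.2.1, hA.2.2.1⟩
    refine (card_le_card h1).trans ?_
    rw [card_powersetCard, card_compl_of h]
    exact Nat.choose_le_choose _ (by omega)
  · rw [filter_eq_empty_iff.2 fun A _ hA => h hA.2.2, card_empty]
    exact Nat.zero_le _

theorem card_QR {V : FS l} (h : V.card = 2 * l) :
    (univ.filter fun B => QR V B).card = (2 * l).choose l := by
  have h1 : (univ.filter fun B => QR V B) = powersetCard l V := by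
    ext B
    simp only [mem_filter, mem_univ, true_and, mem_powersetCard, QR, h, and_true]
  rw [h1, card_powersetCard, h]

theorem QR_row (V : FS l) : (univ.filter fun B => QR V B).card ≤ (3 * l).choose l := by
  by_cases h : V.card = 2 * l
  · rw [card_QR h]
    exact Nat.choose_le_choose _ (by omega)
  · rw [filter_eq_empty_iff.2 fun A _ hA => h hA.2.2, card_empty]
    exact Nat.zero_le _

theorem QR_col (B : FS l) : (univ.filter fun V => QR V B).card ≤ (3 * l).choose l := by
  by_cases h : B.card = l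
  · have h1 : (univ.filter fun V => QR V B).card ≤ (powersetCard (2 * l) Bᶜ).card := by
      refine card_le_card_of_injOn (fun V => Vᶜ) ?_ (fun V _ W _ hVW => compl_injective hVW)
      intro V hV
      rw [mem_coe, mem_filter] at hV
      rw [mem_coe, mem_powersetCard]
      refine ⟨compl_subset_compl.2 hV.2.1, ?_⟩
      rw [card_compl_of hV.2.2.2]
      omega
    refine h1.trans ?_
    rw [card_powersetCard, card_compl_of h, ← choose_aux]
    exact Nat.choose_le_choose _ (by omega)
  · rw [filter_eq_empty_iff.2 fun A _ hA => h hA.2.1, card_empty]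
    exact Nat.zero_le _

theorem PR_inj_row {A V V' : FS l} (h : PR A V) (h' : PR A V')
    (e : lt (A ∪ V)ᶜ = lt (A ∪ V')ᶜ) : V = V' := by
  have h1 := compl_injective (lt_inj e)
  have h2 := congrArg (fun S => S \ A) h1
  simp only [union_sdiff_cancel_left h.1, union_sdiff_cancel_left h'.1] at h2
  exact h2

theorem PR_inj_col {A A' V : FS l} (h : PR A V) (h' : PR A' V)
    (e : lt (A ∪ V)ᶜ = lt (A' ∪ V)ᶜ) : A = A' := by
  have h1 := compl_injective (lt_inj e)
  have h2 := congrArg (fun S => S \ V) h1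
  simp only [union_sdiff_cancel_right h.1, union_sdiff_cancel_right h'.1] at h2
  exact h2

theorem QR_inj_row {V B B' : FS l} (h : QR V B) (h' : QR V B')
    (e : lt (V \ B) = lt (V \ B')) : B = B' := by
  have h1 := lt_inj e
  have h2 := congrArg (fun S => V \ S) h1
  simp only [Finset.sdiff_sdiff_eq_self h.1, Finset.sdiff_sdiff_eq_self h'.1] at h2
  exact h2

theorem QR_inj_col {V V' B : FS l} (h : QR V B) (h' : QR V' B)
    (e : lt (V \ B) = lt (V' \ B)) : V = V' := by
  have h1 := lt_inj e
  have h2 := congrArg (fun S => S ∪ B) h1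
  simp only [sdiff_union_of_subset h.1, sdiff_union_of_subset h'.1] at h2
  exact h2

/-- The number of quadruples. -/
theorem count_sum (l : ℕ) : ∑ A : FS l, ∑ B : FS l, ∑ V : FS l,
    (if PR A V ∧ QR V B then (1 : ℝ) else 0)
      = (4 * l).choose l * (3 * l).choose l * (2 * l).choose l := by
  have h1 : ∀ A : FS l, ∑ B : FS l, ∑ V : FS l, (if PR A V ∧ QR V B then (1 : ℝ) else 0)
      = if A.card = l then ((3 * l).choose l * (2 * l).choose l : ℝ) else 0 := by
    intro A
    rw [sum_comm]
    have h2 : ∀ V : FS l, ∑ B : FS l, (if PR A V ∧ QR V B then (1 : ℝ) else 0)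
        = if PR A V then ((2 * l).choose l : ℝ) else 0 := by
      intro V
      by_cases hP : PR A V
      · rw [if_pos hP, sum_congr rfl fun B _ => if_congr (and_iff_right hP) rfl rfl, sum_boole,
          card_QR hP.2.2]
      · rw [if_neg hP]
        exact sum_eq_zero fun B _ => if_neg fun h => hP h.1
    rw [sum_congr rfl fun V _ => h2 V, ← sum_filter, sum_const, nsmul_eq_mul]
    split_ifs with h
    · rw [card_PR h]
    · rw [filter_eq_empty_iff.2 fun V _ hV => h hV.2.1, card_empty]
      simp
  simp only [h1]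
  rw [← sum_filter, sum_const, nsmul_eq_mul]
  have h3 : (univ.filter fun A : FS l => A.card = l) = powersetCard l univ := by
    ext A
    simp
  rw [h3, card_powersetCard, card_univ, Fintype.card_fin, mul_assoc]

/-- The involution exchanging the roles of the two letters. -/
theorem invol {M : Type*} [AddCommMonoid M] (A B : FS l) (F : FS l → FS l → M) :
    ∑ V, (if PR A V ∧ QR V B then F (A ∪ V)ᶜ (V \ B) else 0)
      = ∑ V, (if PR A V ∧ QR V B then F (V \ B) (A ∪ V)ᶜ else 0) := by
  rw [← sum_filter, ← sum_filter]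
  have key : ∀ V : FS l, PR A V ∧ QR V B →
      (PR A ((A ∪ V)ᶜ ∪ B) ∧ QR ((A ∪ V)ᶜ ∪ B) B) ∧ (A ∪ ((A ∪ V)ᶜ ∪ B))ᶜ = V \ B
        ∧ ((A ∪ V)ᶜ ∪ B) \ B = (A ∪ V)ᶜ := by
    rintro V ⟨⟨hd, hA, hV⟩, hB, hBc, -⟩
    have hAB : Disjoint A B := disjoint_of_subset_right hB hd
    have hcompl : Disjoint (A ∪ V)ᶜ B := by
      rw [disjoint_left]
      intro x hx hxB
      rw [mem_compl, mem_union, not_or] at hx
      exact hx.2 (hB hxB)
    have hcard : ((A ∪ V)ᶜ ∪ B).card = 2 * l := by
      rw [card_union_of_disjoint hcompl, card_compl, card_union_of_disjoint hd,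
        Fintype.card_fin]
      omega
    refine ⟨⟨⟨?_, hA, hcard⟩, subset_union_right, hBc, hcard⟩, ?_, ?_⟩
    · rw [disjoint_union_right]
      refine ⟨?_, hAB⟩
      rw [disjoint_left]
      intro x hx hx2
      rw [mem_compl, mem_union, not_or] at hx2
      exact hx2.1 hx
    · ext x
      have h1 : x ∈ A → x ∉ V := fun h => disjoint_left.1 hd h
      have h2 : x ∈ B → x ∈ V := fun h => hB h
      simp only [mem_compl, mem_union, mem_sdiff]
      tauto
    · ext x
      have h1 : x ∈ (A ∪ V)ᶜ → x ∉ B := fun h => disjoint_left.1 hcompl h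
      simp only [mem_union, mem_sdiff]
      tauto
  refine sum_nbij' (fun V => (A ∪ V)ᶜ ∪ B) (fun V => (A ∪ V)ᶜ ∪ B) ?_ ?_ ?_ ?_ ?_
  · intro V hV
    rw [mem_filter] at hV ⊢
    exact ⟨mem_univ _, (key V hV.2).1⟩
  · intro V hV
    rw [mem_filter] at hV ⊢
    exact ⟨mem_univ _, (key V hV.2).1⟩
  · intro V hV
    rw [mem_filter] at hV
    rw [(key V hV.2).2.1, sdiff_union_of_subset hV.2.2.1]
  · intro V hV
    rw [mem_filter] at hV
    rw [(key V hV.2).2.1, sdiff_union_of_subset hV.2.2.1]
  · intro V hV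
    rw [mem_filter] at hV
    rw [(key V hV.2).2.1, (key V hV.2).2.2]

/-- The basis vectors. -/
noncomputable def bas (A : FS l) : HH :=
  lp.single 2 l (EuclideanSpace.single (ch A) (1 : ℂ) : GG l)

theorem norm_bas (A : FS l) : ‖bas A‖ = 1 := by
  unfold bas
  rw [lp.norm_single (by norm_num)]
  simp

theorem XX_val {A B V : FS l} (h : PR A V ∧ QR V B) :
    XX (4 * l) (ch (A ∪ V)ᶜ) (ch (V \ B)) (ch A) (ch B) = 1 := by
  obtain ⟨⟨hd, -, -⟩, hB, -, -⟩ := h
  simp only [XX, Matrix.of_apply]
  rw [prod_eq_one]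
  · simp
  · intro x _
    have h1 : x ∈ A → x ∉ V := fun h => disjoint_left.1 hd h
    have h2 : x ∈ B → x ∈ V := fun h => hB h
    simp only [ch, mem_compl, mem_union, mem_sdiff]
    by_cases hA : x ∈ A <;> by_cases hV : x ∈ V <;> by_cases hB' : x ∈ B <;>
      simp_all [wt]

theorem phi_val {A B V : FS l} (h : PR A V ∧ QR V B) :
    ⟪bas A, phi (ga (lt (A ∪ V)ᶜ)) (ga (lt (V \ B))) (bas B)⟫_ℂ = (5 / 19 : ℂ) ^ l := by
  have h0 : ((bas B : HH) : ∀ l, GG l) l = EuclideanSpace.single (ch B) (1 : ℂ) := by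
    unfold bas
    rw [lp.coeFn_single, Pi.single_eq_same]
  conv_lhs => rw [bas, lp.inner_single_left, phi_apply, h0]
  rw [EuclideanSpace.inner_single_left]
  unfold TN
  rw [_root_.smul_apply, PiLp.smul_apply, TT_apply, map_one, one_mul, smul_eq_mul]
  have h1 : ∑ B', Mat l (ga (lt (A ∪ V)ᶜ)) (ga (lt (V \ B))) (ch A) B'
      * (EuclideanSpace.single (ch B) (1 : ℂ) : GG l) B' = 1 := by
    rw [sum_eq_single (ch B)]
    · rw [Mat_apply, sum_eq_single (ch (V \ B)), sum_eq_single (ch (A ∪ V)ᶜ)]
      · rw [cf_ga, cf_ga, if_pos (show (⟨l, ch (A ∪ V)ᶜ⟩ : IX) = lt (A ∪ V)ᶜ from rfl), if_pos (show (⟨l, ch (V \ B)⟩ : IX) = lt (V \ B) from rfl), XX_val h, PiLp.single_apply]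
        simp
      · intro I _ hI
        rw [cf_ga, if_neg, zero_mul, zero_mul]
        intro h2
        exact hI (eq_of_heq (Sigma.mk.inj h2).2)
      · simp
      · intro J _ hJ
        refine sum_eq_zero fun I _ => ?_
        rw [cf_ga (⟨l, J⟩ : IX), if_neg, mul_zero, zero_mul]
        intro h2
        exact hJ (eq_of_heq (Sigma.mk.inj h2).2)
      · simp
    · intro B' _ hB'
      rw [PiLp.single_apply, if_neg hB', mul_zero]
    · simp
  rw [h1, mul_one]

end T2H75.JCB
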