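import Mathlib
import Pool.Agent.T2H75.JCB.Low

/-!
# No decomposition
-/

set_option autoImplicit false

open scoped ENNReal InnerProductSpace CStarMatrix
open Finset

namespace T2H75.JCB

/-- The scaling constant. -/
noncomputable def kap (l : ℕ) : ℝ := (√((3 * l).choose l : ℝ))⁻¹

theorem choose_pos' (l : ℕ) : (0 : ℝ) < (3 * l).choose l := by
  exact_mod_cast Nat.choose_pos (by omega)

theorem kap_sq (l : ℕ) : kap l ^ 2 = ((3 * l).choose l : ℝ)⁻¹ := by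
  unfold kap
  rw [inv_pow, Real.sq_sqrt (choose_pos' l).le]

theorem kap_sq_mul (l : ℕ) : kap l ^ 2 * ((3 * l).choose l : ℕ) ≤ 1 := by
  rw [kap_sq]
  exact (inv_mul_cancel₀ (choose_pos' l).ne').le

/-- The first test matrix. -/
noncomputable def tA (l : ℕ) (A V : FS l) : Al IX :=
  if PR A V then (kap l : ℂ) • ga (lt (A ∪ V)ᶜ) else 0

/-- The second test matrix. -/
noncomputable def tB (l : ℕ) (V B : FS l) : Al IX :=
  if QR V B then (kap l : ℂ) • ga (lt (V \ B)) else 0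

/-- The test vectors. -/
noncomputable def tx (l : ℕ) (A : FS l) : HH := if A.card = l then bas A else 0

theorem tx_norm (l : ℕ) : ∑ A : FS l, ‖tx l A‖ ^ 2 = (4 * l).choose l := by
  have h1 : ∀ A : FS l, ‖tx l A‖ ^ 2 = if A.card = l then 1 else 0 := by
    intro A
    unfold tx
    split_ifs
    · rw [norm_bas, one_pow]
    · simp
  rw [sum_congr rfl fun A _ => h1 A, sum_boole]
  have h3 : (univ.filter fun A : FS l => A.card = l) = powersetCard l univ := by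
    ext A
    simp
  rw [h3, card_powersetCard, card_univ, Fintype.card_fin]

theorem pair_le {φ₁ : Al IX →ₗ[ℂ] Al IX →ₗ[ℂ] (HH →L[ℂ] HH)} {C : ℝ}
    (h : ∀ (n : ℕ) (a b : CStarMatrix (Fin n) (Fin n) (Al IX)) (x : Fin n → HH),
      ∑ i : Fin n, ‖∑ j : Fin n, ∑ k : Fin n, φ₁ (a i k) (b k j) (x j)‖ ^ 2
        ≤ (C * ‖a‖ * ‖b‖) ^ 2 * ∑ j : Fin n, ‖x j‖ ^ 2) (l : ℕ) :
    ‖∑ A : FS l, ∑ B : FS l, ∑ V : FS l, (if PR A V ∧ QR V B then
      ⟪bas A, φ₁ (ga (lt (A ∪ V)ᶜ)) (ga (lt (V \ B))) (bas B)⟫_ℂ else 0)‖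
      ≤ |C| * 4 * (4 * l).choose l * (3 * l).choose l := by
  have h1 := pairing h (tA l) (tB l)
    (test_bound (fun A V : FS l => PR A V) (fun A V => lt (A ∪ V)ᶜ) ((3 * l).choose l) (kap l)
      (kap_sq_mul l) (fun _ _ _ hp hq e => PR_inj_row hp hq e)
      (fun _ _ _ hp hq e => PR_inj_col hp hq e) PR_row PR_col)
    (test_bound (fun V B : FS l => QR V B) (fun V B => lt (V \ B)) ((3 * l).choose l) (kap l)
      (kap_sq_mul l) (fun _ _ _ hp hq e => QR_inj_row hp hq e)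
      (fun _ _ _ hp hq e => QR_inj_col hp hq e) QR_row QR_col)
    (tx l) (tx l) (Nat.cast_nonneg _) (tx_norm l).le (tx_norm l).le
  have h2 : ∑ A : FS l, ∑ B : FS l, ∑ V : FS l, ⟪tx l A, φ₁ (tA l A V) (tB l V B) (tx l B)⟫_ℂ
      = ((kap l ^ 2 : ℝ) : ℂ) * ∑ A : FS l, ∑ B : FS l, ∑ V : FS l, (if PR A V ∧ QR V B then
        ⟪bas A, φ₁ (ga (lt (A ∪ V)ᶜ)) (ga (lt (V \ B))) (bas B)⟫_ℂ else 0) := by
    rw [mul_sum]
    refine sum_congr rfl fun A _ => ?_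
    rw [mul_sum]
    refine sum_congr rfl fun B _ => ?_
    rw [mul_sum]
    refine sum_congr rfl fun V _ => ?_
    by_cases hP : PR A V
    · by_cases hQ : QR V B
      · rw [if_pos ⟨hP, hQ⟩, tA, if_pos hP, tB, if_pos hQ, tx, if_pos hP.2.1, tx, if_pos hQ.2.1]
        rw [map_smul, map_smul, LinearMap.smul_apply, _root_.smul_apply, _root_.smul_apply,
          inner_smul_right, inner_smul_right]
        push_cast
        ring
      · rw [if_neg fun h => hQ h.2, tB, if_neg hQ]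
        simp
    · rw [if_neg fun h => hP h.1, tA, if_neg hP]
      simp
  rw [h2, norm_mul, Complex.norm_real, Real.norm_of_nonneg (sq_nonneg _), kap_sq,
    inv_mul_le_iff₀ (choose_pos' l)] at h1
  linarith

theorem main_ineq {φ₁ φ₂ : Al IX →ₗ[ℂ] Al IX →ₗ[ℂ] (HH →L[ℂ] HH)} {C₁ C₂ : ℝ}
    (h₁ : ∀ (n : ℕ) (a b : CStarMatrix (Fin n) (Fin n) (Al IX)) (x : Fin n → HH),
      ∑ i : Fin n, ‖∑ j : Fin n, ∑ k : Fin n, φ₁ (a i k) (b k j) (x j)‖ ^ 2
        ≤ (C₁ * ‖a‖ * ‖b‖) ^ 2 * ∑ j : Fin n, ‖x j‖ ^ 2)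
    (h₂ : ∀ (n : ℕ) (a b : CStarMatrix (Fin n) (Fin n) (Al IX)) (x : Fin n → HH),
      ∑ i : Fin n, ‖∑ j : Fin n, ∑ k : Fin n, φ₂ (a i k) (b k j) (x j)‖ ^ 2
        ≤ (C₂ * ‖a‖ * ‖b‖) ^ 2 * ∑ j : Fin n, ‖x j‖ ^ 2)
    (hs : ∀ a b : Al IX, phi a b = φ₁ a b + φ₂ b a) (l : ℕ) :
    (5 / 19 : ℝ) ^ l * (2 * l).choose l ≤ 4 * (|C₁| + |C₂|) := by
  have p1 := pair_le h₁ l
  have p2 := pair_le h₂ l
  have e2 : ∑ A : FS l, ∑ B : FS l, ∑ V : FS l, (if PR A V ∧ QR V B then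
      ⟪bas A, φ₂ (ga (lt (A ∪ V)ᶜ)) (ga (lt (V \ B))) (bas B)⟫_ℂ else 0)
      = ∑ A : FS l, ∑ B : FS l, ∑ V : FS l, (if PR A V ∧ QR V B then
      ⟪bas A, φ₂ (ga (lt (V \ B))) (ga (lt (A ∪ V)ᶜ)) (bas B)⟫_ℂ else 0) :=
    sum_congr rfl fun A _ => sum_congr rfl fun B _ =>
      invol A B fun I J => ⟪bas A, φ₂ (ga (lt I)) (ga (lt J)) (bas B)⟫_ℂ
  rw [e2] at p2
  have e3 : ∑ A : FS l, ∑ B : FS l, ∑ V : FS l, (if PR A V ∧ QR V B then
      ⟪bas A, φ₁ (ga (lt (A ∪ V)ᶜ)) (ga (lt (V \ B))) (bas B)⟫_ℂ else 0)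
      + ∑ A : FS l, ∑ B : FS l, ∑ V : FS l, (if PR A V ∧ QR V B then
      ⟪bas A, φ₂ (ga (lt (V \ B))) (ga (lt (A ∪ V)ᶜ)) (bas B)⟫_ℂ else 0)
      = (((5 / 19 : ℝ) ^ l * ((4 * l).choose l * (3 * l).choose l * (2 * l).choose l) : ℝ) : ℂ) := by
    rw [← count_sum, ← sum_add_distrib]
    push_cast
    rw [mul_sum]
    refine sum_congr rfl fun A _ => ?_
    rw [← sum_add_distrib, mul_sum]
    refine sum_congr rfl fun B _ => ?_
    rw [← sum_add_distrib, mul_sum]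
    refine sum_congr rfl fun V _ => ?_
    by_cases hPQ : PR A V ∧ QR V B
    · rw [if_pos hPQ, if_pos hPQ, if_pos hPQ, ← inner_add_right, ← _root_.add_apply, ← hs,
        phi_val hPQ]
      simp
    · rw [if_neg hPQ, if_neg hPQ, if_neg hPQ]
      simp
  have h3 := (norm_add_le _ _).trans (add_le_add p1 p2)
  rw [e3, Complex.norm_real, Real.norm_of_nonneg (by positivity)] at h3
  have h4 : (0 : ℝ) < (4 * l).choose l := by
    exact_mod_cast Nat.choose_pos (by omega)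
  have h5 := choose_pos' l
  have h6 : (0 : ℝ) < (4 * l).choose l * (3 * l).choose l := mul_pos h4 h5
  refine le_of_mul_le_mul_left ?_ h6
  linarith

theorem no_bound (K : ℝ) : ∃ l : ℕ, K < (5 / 19 : ℝ) ^ l * (2 * l).choose l := by
  have h1 : ∀ l : ℕ, 4 ≤ l → (20 / 19 : ℝ) ^ l / l ≤ (5 / 19 : ℝ) ^ l * (2 * l).choose l := by
    intro l hl
    have h2 := Nat.four_pow_lt_mul_centralBinom l hl
    have h3 : (4 : ℝ) ^ l < l * (2 * l).choose l := by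
      rw [← Nat.centralBinom_eq_two_mul_choose]
      exact_mod_cast h2
    have hl0 : (0 : ℝ) < l := by
      have : 0 < l := by omega
      exact_mod_cast this
    rw [div_le_iff₀ hl0]
    calc (20 / 19 : ℝ) ^ l = (5 / 19 : ℝ) ^ l * 4 ^ l := by
          rw [← mul_pow]
          norm_num
      _ ≤ (5 / 19 : ℝ) ^ l * (l * (2 * l).choose l) := by gcongr
      _ = _ := by ring
  have h2 : Filter.Tendsto (fun l : ℕ => (20 / 19 : ℝ) ^ l / l) Filter.atTop Filter.atTop := by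
    have h3 := tendsto_pow_const_div_const_pow_of_one_lt 1 (by norm_num : (1 : ℝ) < 20 / 19)
    have h4 : Filter.Tendsto (fun l : ℕ => ((l : ℝ) ^ 1 / (20 / 19 : ℝ) ^ l)) Filter.atTop
        (nhdsWithin 0 (Set.Ioi 0)) := by
      rw [tendsto_nhdsWithin_iff]
      refine ⟨h3, ?_⟩
      filter_upwards [Filter.eventually_ge_atTop 1] with l hl
      have : (0 : ℝ) < l := by exact_mod_cast hl
      exact Set.mem_Ioi.2 (by positivity)
    refine (tendsto_inv_nhdsGT_zero.comp h4).congr fun l => ?_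
    simp
  obtain ⟨l, hl, hl4⟩ := ((h2.eventually_gt_atTop K).and (Filter.eventually_ge_atTop 4)).exists
  exact ⟨l, hl.trans_le (h1 l hl4)⟩

end T2H75.JCB
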